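import Pool.Agent.Work.MP_fe1b94_co.TW.KeyT
import Pool.Agent.Work.MP_fe1b94_co.Defs
import Pool.Agent.Work.MP_5e4e5a_co.ItemB

/-!
For `t ≥ 3` every list assignment with lists of size `2 t - 1` of a graph of treewidth at most `t`
has a packing.
-/

set_option autoImplicit false

namespace Pool.Agent.MPfe1b94.TW

open Finset Function Pool.Agent.IForest

/-- A packing on the vertices of `A` without common blocks on cliques of size `t`. -/
structure NiceT {V C : Type} [DecidableEq V] [DecidableEq C] {n : ℕ} (t : ℕ) (L : V → Finset C)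
    (H : SimpleGraph V) (A : Finset V) (s : V → Fin n → C) : Prop where
  inj : ∀ v ∈ A, Injective (s v)
  mem : ∀ v ∈ A, ∀ j, s v j ∈ L v
  adj : ∀ u ∈ A, ∀ v ∈ A, H.Adj u v → ∀ j, s u j ≠ s v j
  good : ∀ K ⊆ A, K.card = t → (∀ x ∈ K, ∀ y ∈ K, x ≠ y → H.Adj x y) → ¬ BadT t (K.image s)

/-- The row of a new vertex whose neighbours are the vertices of a clique `B` with at most `t`
vertices. -/
theorem extend_cliqueT {V C : Type} [DecidableEq V] [DecidableEq C] {n : ℕ} (t : ℕ) (ht : 3 ≤ t)
    (hn : n + 1 = 2 * t) (Lv : Finset C) (hL : Lv.card = n) (d : Fin t → Fin n → C)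
    (hd : ∀ i j i' j', d i j = d i' j' → i = i' ∧ j = j')
    (s : V → Fin n → C) (B : Finset V) (hB : B.card ≤ t)
    (hinj : ∀ b ∈ B, Injective (s b)) (hdis : ∀ b ∈ B, ∀ i j j', s b j ≠ d i j')
    (hadj : ∀ b ∈ B, ∀ b' ∈ B, b ≠ b' → ∀ j, s b j ≠ s b' j)
    (hgood : B.card = t → ¬ BadT t (B.image s)) :
    ∃ r : Fin n → C, Injective r ∧ (∀ j, r j ∈ Lv) ∧ (∀ b ∈ B, ∀ j, r j ≠ s b j) ∧
      ∀ K ⊆ B, K.card + 1 = t → ¬ BadT t (insert r (K.image s)) := by
  have j0 : Fin n := ⟨0, by omega⟩
  have hsi : ∀ b ∈ B, ∀ b' ∈ B, s b = s b' → b = b' := by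
    intro b hb b' hb' he
    by_contra hne
    exact hadj b hb b' hb' hne j0 (congrFun he j0)
  have hdinj : Injective d := by
    intro i i' he
    exact (hd i j0 i' j0 (congrFun he j0)).1
  -- the dummy rows
  obtain ⟨I, -, hI⟩ := Finset.exists_subset_card_eq
    (show t - B.card ≤ (Finset.univ : Finset (Fin t)).card by
      rw [Finset.card_univ, Fintype.card_fin]; omega)
  set R := B.image s ∪ I.image d with hRdef
  have hBI : Disjoint (B.image s) (I.image d) := by
    rw [Finset.disjoint_left]
    intro r h1 h2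
    obtain ⟨b, hb, rfl⟩ := Finset.mem_image.mp h1
    obtain ⟨i, -, hi⟩ := Finset.mem_image.mp h2
    exact hdis b hb i j0 j0 (congrFun hi j0).symm
  have hBc : (B.image s).card = B.card := Finset.card_image_of_injOn fun b hb b' hb' he =>
    hsi b hb b' hb' he
  have hR : R.card = t := by
    rw [hRdef, Finset.card_union_of_disjoint hBI, hBc, Finset.card_image_of_injective _ hdinj, hI]
    omega
  have hr : Rows R := by
    constructor
    · intro r h
      rcases Finset.mem_union.mp h with h | h
      · obtain ⟨b, hb, rfl⟩ := Finset.mem_image.mp h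
        exact hinj b hb
      · obtain ⟨i, -, rfl⟩ := Finset.mem_image.mp h
        exact fun j j' he => (hd i j i j' he).2
    · intro r h r' h' hne j
      rcases Finset.mem_union.mp h with h1 | h1 <;> rcases Finset.mem_union.mp h' with h2 | h2
      · obtain ⟨b, hb, rfl⟩ := Finset.mem_image.mp h1
        obtain ⟨b', hb', rfl⟩ := Finset.mem_image.mp h2
        exact hadj b hb b' hb' (fun e => hne (congrArg s e)) j
      · obtain ⟨b, hb, rfl⟩ := Finset.mem_image.mp h1
        obtain ⟨i, -, rfl⟩ := Finset.mem_image.mp h2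
        exact hdis b hb i j j
      · obtain ⟨b, hb, rfl⟩ := Finset.mem_image.mp h2
        obtain ⟨i, -, rfl⟩ := Finset.mem_image.mp h1
        exact (hdis b hb i j j).symm
      · obtain ⟨i, -, rfl⟩ := Finset.mem_image.mp h1
        obtain ⟨i', -, rfl⟩ := Finset.mem_image.mp h2
        intro he
        exact hne (congrArg d (hd i j i' j he).1)
  have hg : ¬ BadT t R := by
    by_cases hBt : B.card = t
    · have hI0 : I = ∅ := Finset.card_eq_zero.mp (by omega)
      rw [hRdef, hI0, Finset.image_empty, Finset.union_empty]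
      exact hgood hBt
    · rintro ⟨A, hA, hAA⟩
      obtain ⟨i, hi⟩ := Finset.card_pos.mp (show 0 < I.card by omega)
      have hdi : d i ∈ R := Finset.mem_union_right _ (Finset.mem_image_of_mem _ hi)
      obtain ⟨r', hr', hne⟩ := Finset.exists_mem_ne (show 1 < R.card by omega) (d i)
      obtain ⟨a, ha⟩ := Finset.card_pos.mp (show 0 < A.card by omega)
      have hm : d i a ∈ A.image r' := by
        rw [← hAA _ hdi _ hr']
        exact Finset.mem_image_of_mem _ ha
      obtain ⟨a', -, he⟩ := Finset.mem_image.mp hm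
      rcases Finset.mem_union.mp hr' with h1 | h1
      · obtain ⟨b, hb, rfl⟩ := Finset.mem_image.mp h1
        exact hdis b hb i a' a he
      · obtain ⟨i', -, rfl⟩ := Finset.mem_image.mp h1
        exact hne (congrArg d (hd i' a' i a he).1)
  obtain ⟨r, r1, r2, r3, r4⟩ := keyT t ht hn Lv hL R hR hr hg
  refine ⟨r, r1, r2, fun b hb j => r3 (s b)
    (Finset.mem_union_left _ (Finset.mem_image_of_mem _ hb)) j, ?_⟩
  intro K hK hKc
  have hKi : (K.image s).card = K.card := Finset.card_image_of_injOn fun b hb b' hb' he =>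
    hsi b (hK hb) b' (hK hb') he
  have hKR : K.image s ⊆ R := (Finset.image_subset_image hK).trans Finset.subset_union_left
  obtain ⟨q, hq, hqK⟩ := Finset.exists_mem_notMem_of_card_lt_card
    (show (K.image s).card < R.card by omega)
  have hKe : K.image s = R.erase q := by
    apply Finset.eq_of_subset_of_card_le
    · intro x hx
      exact Finset.mem_erase.mpr ⟨fun e => hqK (e ▸ hx), hKR hx⟩
    · rw [Finset.card_erase_of_mem hq]; omega
  rw [hKe]
  exact r4 q hq

/-- Induction along an elimination ordering. -/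
theorem exists_niceT {V C : Type} [Fintype V] [DecidableEq V] [DecidableEq C] {n : ℕ} (t : ℕ)
    (ht : 3 ≤ t) (hn : n + 1 = 2 * t) (L : V → Finset C)
    (hL : ∀ v, (L v).card = n) (d : Fin t → Fin n → C)
    (hd : ∀ i j i' j', d i j = d i' j' → i = i' ∧ j = j') (hdL : ∀ v i j, d i j ∉ L v) :
    ∀ (m : ℕ) (H : SimpleGraph V) (A : Finset V), A.card = m → HasTD t H A →
      ∃ s : V → Fin n → C, NiceT t L H A s := by
  intro m
  induction m with
  | zero =>
    intro H A hA _
    rw [Finset.card_eq_zero] at hA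
    subst hA
    refine ⟨fun _ => d ⟨0, by omega⟩, by simp, by simp, by simp, ?_⟩
    intro K hK hKc
    rw [Finset.subset_empty.mp hK] at hKc
    simp at hKc
    omega
  | succ m ih =>
    intro H A hA hTD
    have hne : A.Nonempty := Finset.card_pos.mp (by omega)
    obtain ⟨v, hv, B, hBA, hvB, hBc, hN, hTD'⟩ := prB V t H A hTD hne
    obtain ⟨s, hs⟩ := ih _ (A.erase v) (by rw [Finset.card_erase_of_mem hv]; omega) hTD'
    have hBe : ∀ b ∈ B, b ∈ A.erase v := fun b hb =>
      Finset.mem_erase.mpr ⟨fun h => hvB (h ▸ hb), hBA hb⟩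
    have hBadj : ∀ b ∈ B, ∀ b' ∈ B, b ≠ b' →
        (H ⊔ SimpleGraph.fromRel fun x y => x ∈ B ∧ y ∈ B).Adj b b' := by
      intro b hb b' hb' hne
      rw [SimpleGraph.sup_adj, SimpleGraph.fromRel_adj]
      exact Or.inr ⟨hne, Or.inl ⟨hb, hb'⟩⟩
    obtain ⟨r, t1, t2, t3, t4⟩ := extend_cliqueT t ht hn (L v) (hL v) d hd s B hBc
      (fun b hb => hs.inj b (hBe b hb))
      (fun b hb i j j' e => hdL b i j' (e ▸ hs.mem b (hBe b hb) j))
      (fun b hb b' hb' hne => hs.adj b (hBe b hb) b' (hBe b' hb') (hBadj b hb b' hb' hne))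
      (fun hBt => hs.good B (fun b hb => hBe b hb) hBt hBadj)
    have hle : ∀ x y, H.Adj x y →
        (H ⊔ SimpleGraph.fromRel fun x y => x ∈ B ∧ y ∈ B).Adj x y := by
      intro x y hxy
      rw [SimpleGraph.sup_adj]
      exact Or.inl hxy
    have hv' : Function.update s v r v = r := by simp
    have hne' : ∀ x, x ≠ v → Function.update s v r x = s x := fun x hx => by simp [hx]
    have hin : ∀ x ∈ A, x ≠ v → x ∈ A.erase v := fun x hx hxv =>
      Finset.mem_erase.mpr ⟨hxv, hx⟩
    refine ⟨Function.update s v r, ?_, ?_, ?_, ?_⟩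
    · intro x hx
      by_cases hxv : x = v
      · subst hxv; rw [hv']; exact t1
      · rw [hne' x hxv]; exact hs.inj x (hin x hx hxv)
    · intro x hx
      by_cases hxv : x = v
      · subst hxv; rw [hv']; exact t2
      · rw [hne' x hxv]; exact hs.mem x (hin x hx hxv)
    · intro x hx y hy hxy j
      by_cases hxv : x = v
      · subst hxv
        rw [hv', hne' y hxy.ne']
        exact t3 y (hN y hy hxy) j
      · by_cases hyv : y = v
        · subst hyv
          rw [hv', hne' x hxv]
          exact (t3 x (hN x hx hxy.symm) j).symm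
        · rw [hne' x hxv, hne' y hyv]
          exact hs.adj x (hin x hx hxv) y (hin y hy hyv) (hle x y hxy) j
    · intro K hKA hKc hK
      by_cases hvK : v ∈ K
      · have himg : K.image (Function.update s v r) = insert r ((K.erase v).image s) := by
          conv_lhs => rw [← Finset.insert_erase hvK]
          rw [Finset.image_insert, hv']
          congr 1
          apply Finset.image_congr
          intro x hx
          exact hne' x (Finset.mem_erase.mp hx).1
        rw [himg]
        apply t4
        · intro x hx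
          obtain ⟨hxv, hxK⟩ := Finset.mem_erase.mp hx
          exact hN x (hKA hxK) (hK v hvK x hxK hxv.symm)
        · rw [Finset.card_erase_of_mem hvK, hKc]
          omega
      · have himg : K.image (Function.update s v r) = K.image s := by
          apply Finset.image_congr
          intro x hx
          exact hne' x fun e => hvK (e ▸ hx)
        rw [himg]
        exact hs.good K (fun x hx => hin x (hKA hx) fun e => hvK (e ▸ hx)) hKc
          fun x hx y hy hne => hle x y (hK x hx y hy hne)

/-- Every list assignment with lists of size `2 t - 1` of a graph of treewidth at most `t` has a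
packing, for `t ≥ 3`. -/
theorem listPackable_treewidth {V : Type} [Fintype V] (G : SimpleGraph V) (t : ℕ) (ht : 3 ≤ t)
    (hT : TreewidthLE G t) : ListPackable G (2 * t - 1) := by
  classical
  intro C L hL
  obtain ⟨n, T, bag, h1, h2, h3, h4, h5⟩ := hT
  let L' : V → Finset (C ⊕ (Fin t × Fin (2 * t - 1))) := fun v => (L v).map Embedding.inl
  have hL' : ∀ v, (L' v).card = 2 * t - 1 := fun v => by rw [Finset.card_map, hL]
  obtain ⟨s, hs⟩ := exists_niceT t ht (by omega) L' hL' (fun i j => Sum.inr (i, j))
    (by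
      intro i j i' j' h
      have h' := Prod.ext_iff.mp (Sum.inr_injective h)
      exact ⟨h'.1, h'.2⟩)
    (by
      intro v i j h
      simp [L'] at h)
    (Finset.univ : Finset V).card G Finset.univ rfl
    ⟨n, T, bag, h1, h2, fun v _ => h3 v, fun u _ v _ => h4 u v, fun v _ => h5 v⟩
  have hc : ∀ v j, ∃ c ∈ L v, Sum.inl c = s v j := by
    intro v j
    have := hs.mem v (Finset.mem_univ v) j
    obtain ⟨c, hc, hcs⟩ := Finset.mem_map.mp this
    exact ⟨c, hc, hcs⟩
  choose c hcL hcs using hc
  refine ⟨fun j v => c v j, fun j v => hcL v j, ?_, ?_⟩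
  · intro j u v huv heq
    apply hs.adj u (Finset.mem_univ u) v (Finset.mem_univ v) huv j
    rw [← hcs, ← hcs]
    exact congrArg Sum.inl heq
  · intro i j hij v heq
    apply hij
    apply hs.inj v (Finset.mem_univ v)
    rw [← hcs, ← hcs]
    exact congrArg Sum.inl heq

end Pool.Agent.MPfe1b94.TW
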