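import Pool.Agent.Work.MP_fe1b94_co.TW.ListGadget
import Pool.Agent.Work.MP_fe1b94_co.Defs
import Pool.Agent.Work.MP_fe1b94_co.Strip

/-!
A planar strip with a 4-list assignment without packing.
-/

set_option autoImplicit false

namespace Pool.Agent.MPfe1b94.TW

open Pool.Agent.Work.MP_fe1b94_co.H65 (Vtx E stripGraph)

/-- the colours -/
abbrev Col := Fin 4 ⊕ Fin 4

/-- the number of a colour -/
def code : Col → ℕ
  | .inl i => i
  | .inr i => 4 + i

/-- the colour with a number -/
def cc (m : ℕ) : Col := match m with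
  | 0 => .inl 0
  | 1 => .inl 1
  | 2 => .inl 2
  | 3 => .inl 3
  | 4 => .inr 0
  | 5 => .inr 1
  | 6 => .inr 2
  | _ => .inr 3

theorem code_inj : Function.Injective code := by
  intro a b h
  rcases a with a | a <;> rcases b with b | b <;> simp only [code] at h
  · exact congrArg _ (Fin.ext h)
  · omega
  · omega
  · exact congrArg _ (Fin.ext (by omega))

theorem card_perm4 : Fintype.card (Equiv.Perm (Fin 4)) = 24 := by
  rw [Fintype.card_perm, Fintype.card_fin]; rfl

/-- enumeration of the permutations of four colours -/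
noncomputable def rho (j : ℕ) : Equiv.Perm (Fin 4) :=
  if h : j < 24 then (Fintype.equivFinOfCardEq card_perm4).symm ⟨j, h⟩ else 1

theorem rho_surj (g : Equiv.Perm (Fin 4)) : ∃ j < 24, rho j = g := by
  refine ⟨(Fintype.equivFinOfCardEq card_perm4 g).val, Fin.is_lt _, ?_⟩
  rw [rho, dif_pos (Fin.is_lt _)]
  simp

/-- the set of colours of a list of numbers -/
def base (l : List ℕ) : Finset Col := (l.map cc).toFinset

/-- renaming of the colours of the second pole -/
def ren (π : Equiv.Perm (Fin 4)) : Col → Col := Sum.map id π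

theorem ren_inj (π : Equiv.Perm (Fin 4)) : Function.Injective (ren π) :=
  Sum.map_injective.mpr ⟨Function.injective_id, π.injective⟩

theorem card_lw (i : ℕ) : (base (lw i)).card = 4 := by
  unfold lw
  split <;> decide

theorem card_lx (i : ℕ) : (base (lx i)).card = 4 := by
  unfold lx
  split <;> decide

theorem card_ly (i : ℕ) : (base (ly i)).card = 4 := by
  unfold ly
  split <;> decide

theorem lt_lw (i : ℕ) : ∀ m ∈ lw i, m < 8 := by
  unfold lw
  split <;> decide

theorem lt_lx (i : ℕ) : ∀ m ∈ lx i, m < 8 := by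
  unfold lx
  split <;> decide

theorem lt_ly (i : ℕ) : ∀ m ∈ ly i, m < 8 := by
  unfold ly
  split <;> decide

theorem code_cc : ∀ m < 8, code (cc m) = m := by decide

theorem code_mem {l : List ℕ} (hl : ∀ m ∈ l, m < 8) {c : Col} (hc : c ∈ base l) :
    code c ∈ l := by
  unfold base at hc
  rw [List.mem_toFinset, List.mem_map] at hc
  obtain ⟨m, hm, rfl⟩ := hc
  rw [code_cc m (hl m hm)]
  exact hm

/-- the list assignment -/
noncomputable def stripLists (n : ℕ) : Vtx n → Finset Col
  | .pole false => Finset.univ.image Sum.inl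
  | .pole true => Finset.univ.image Sum.inr
  | .w m => (base (lw (m.val % 10))).image (ren (rho (m.val / 10)))
  | .x false m => (base (lx (m.val % 10))).image (ren (rho (m.val / 10)))
  | .x true m => (base (ly (m.val % 10))).image (ren (rho (m.val / 10)))

theorem card_stripLists (n : ℕ) (v : Vtx n) : (stripLists n v).card = 4 := by
  rcases v with s | m | ⟨s, m⟩
  · rcases s with _ | _
    · exact (Finset.card_image_of_injective _ Sum.inl_injective).trans (by simp)
    · exact (Finset.card_image_of_injective _ Sum.inr_injective).trans (by simp)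
  · exact (Finset.card_image_of_injective _ (ren_inj _)).trans (card_lw _)
  · rcases s with _ | _
    · exact (Finset.card_image_of_injective _ (ren_inj _)).trans (card_lx _)
    · exact (Finset.card_image_of_injective _ (ren_inj _)).trans (card_ly _)

theorem not_listPackable_four : ¬ ListPackable (stripGraph 239) 4 := by
  intro hpack
  obtain ⟨c, hmem, hcol, hdis⟩ := hpack Col (stripLists 239) (card_stripLists 239)
  have hinj : ∀ v, Function.Injective fun i => c i v := by
    intro v i j hij
    by_contra hne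
    exact hdis i j hne v hij
  -- normalise at the first pole
  have h1 : ∀ i, ∃ k : Fin 4, Sum.inl k = c i (.pole false) := by
    intro i
    have := hmem i (.pole false)
    obtain ⟨k, -, hk⟩ := Finset.mem_image.mp this
    exact ⟨k, hk⟩
  choose τ' hτ' using h1
  have hτi : Function.Injective τ' := by
    intro i j hij
    apply hinj (.pole false)
    show c i (.pole false) = c j (.pole false)
    rw [← hτ' i, ← hτ' j, hij]
  let τ : Equiv.Perm (Fin 4) := Equiv.ofBijective τ' (Finite.injective_iff_bijective.mp hτi)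
  have hτ : ∀ i, c (τ⁻¹ i) (.pole false) = Sum.inl i := by
    intro i
    rw [← hτ' (τ⁻¹ i)]
    congr 1
    exact τ.apply_symm_apply i
  -- the second pole
  have h2 : ∀ i, ∃ k : Fin 4, Sum.inr k = c (τ⁻¹ i) (.pole true) := by
    intro i
    have := hmem (τ⁻¹ i) (.pole true)
    obtain ⟨k, -, hk⟩ := Finset.mem_image.mp this
    exact ⟨k, hk⟩
  choose ρ' hρ' using h2
  have hρi : Function.Injective ρ' := by
    intro i j hij
    apply (τ⁻¹ : Equiv.Perm (Fin 4)).injective
    apply hinj (.pole true)
    show c (τ⁻¹ i) (.pole true) = c (τ⁻¹ j) (.pole true)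
    rw [← hρ' i, ← hρ' j, hij]
  let ρ : Equiv.Perm (Fin 4) := Equiv.ofBijective ρ' (Finite.injective_iff_bijective.mp hρi)
  obtain ⟨j, hj, hrho⟩ := rho_surj ρ
  -- the renamed rows
  set g : Col → ℕ := fun a => code (ren (rho j)⁻¹ a) with hg
  have hgi : Function.Injective g := code_inj.comp (ren_inj _)
  set row : Vtx 239 → Fin 4 → ℕ := fun v i => g (c (τ⁻¹ i) v) with hrow
  have hrowi : ∀ v, Function.Injective (row v) := fun v =>
    hgi.comp ((hinj v).comp (τ⁻¹ : Equiv.Perm (Fin 4)).injective)
  have hp : row (.pole false) = ![0, 1, 2, 3] := by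
    funext i
    show g (c (τ⁻¹ i) (.pole false)) = _
    rw [hτ i]
    show ((i : Fin 4) : ℕ) = _
    fin_cases i <;> rfl
  have hq : row (.pole true) = ![4, 5, 6, 7] := by
    funext i
    show g (c (τ⁻¹ i) (.pole true)) = _
    rw [← hρ' i]
    show 4 + (((rho j)⁻¹ (ρ' i) : Fin 4) : ℕ) = _
    have e : (rho j)⁻¹ (ρ' i) = i := by
      rw [hrho]
      exact ρ.symm_apply_apply i
    rw [e]
    fin_cases i <;> rfl
  have hadj : ∀ a b, (stripGraph 239).Adj a b → Dis (row a) (row b) := by
    intro a b hab i he
    exact hcol (τ⁻¹ i) a b hab (hgi he)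
  have hE : ∀ a b, E a b → Dis (row b) (row a) := fun a b hab => hadj b a (Or.inr hab)
  have hback : ∀ (l : List ℕ), (∀ m ∈ l, m < 8) → ∀ (v : Vtx 239),
      stripLists 239 v = (base l).image (ren (rho j)) → InL (row v) l := by
    intro l hl v hv
    refine ⟨hrowi v, fun i => ?_⟩
    apply code_mem hl
    have := hmem (τ⁻¹ i) v
    rw [hv] at this
    obtain ⟨a, ha, he⟩ := Finset.mem_image.mp this
    have e2 : ren (rho j)⁻¹ (c (τ⁻¹ i) v) = a := by
      rw [← he]
      rcases a with a | a
      · rfl
      · show Sum.inr ((rho j)⁻¹ (rho j a)) = _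
        exact congrArg Sum.inr ((rho j).symm_apply_apply a)
    rw [e2]
    exact ha
  -- the positions of the copy `j`
  let W : ℕ → Vtx 239 := fun i => .w ⟨(10 * j + i) % 240, Nat.mod_lt _ (by norm_num)⟩
  let X : Bool → ℕ → Vtx 239 := fun s i => .x s ⟨(10 * j + i) % 239, Nat.mod_lt _ (by norm_num)⟩
  have e9 : ∀ i < 9, (10 * j + i) % 239 = 10 * j + i := fun i hi => Nat.mod_eq_of_lt (by omega)
  have e0 : ∀ i < 10, (10 * j + i) % 240 = 10 * j + i := fun i hi => Nat.mod_eq_of_lt (by omega)
  have hWE : ∀ s i, E (.pole s : Vtx 239) (W i) := fun s i => trivial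
  have hXE : ∀ s i, E (.pole s : Vtx 239) (X s i) := fun s i => rfl
  have hWW : ∀ i < 9, E (W i) (W (i + 1)) := by
    intro i hi
    show (10 * j + (i + 1)) % 240 = (10 * j + i) % 240 + 1
    rw [e0 _ (by omega), e0 _ (by omega)]
    omega
  have hWX : ∀ s, ∀ i < 9, E (W i) (X s i) := by
    intro s i hi
    left
    show (10 * j + i) % 240 = (10 * j + i) % 239
    rw [e0 _ (by omega), e9 _ hi]
  have hWX' : ∀ s, ∀ i < 9, E (W (i + 1)) (X s i) := by
    intro s i hi
    right
    show (10 * j + (i + 1)) % 240 = (10 * j + i) % 239 + 1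
    rw [e0 _ (by omega), e9 _ hi]
    omega
  have hLw : ∀ i < 10, InL (row (W i)) (lw i) := by
    intro i hi
    apply hback _ (lt_lw i)
    show (base (lw ((10 * j + i) % 240 % 10))).image (ren (rho ((10 * j + i) % 240 / 10))) = _
    rw [e0 i hi, show (10 * j + i) % 10 = i by omega, show (10 * j + i) / 10 = j by omega]
  have hLx : ∀ i < 9, InL (row (X false i)) (lx i) := by
    intro i hi
    apply hback _ (lt_lx i)
    show (base (lx ((10 * j + i) % 239 % 10))).image (ren (rho ((10 * j + i) % 239 / 10))) = _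
    rw [e9 i hi, show (10 * j + i) % 10 = i by omega, show (10 * j + i) / 10 = j by omega]
  have hLy : ∀ i < 9, InL (row (X true i)) (ly i) := by
    intro i hi
    apply hback _ (lt_ly i)
    show (base (ly ((10 * j + i) % 239 % 10))).image (ren (rho ((10 * j + i) % 239 / 10))) = _
    rw [e9 i hi, show (10 * j + i) % 10 = i by omega, show (10 * j + i) / 10 = j by omega]
  exact no_extension (fun i => row (W i)) (fun i => row (X false i)) (fun i => row (X true i))
    hLw hLx hLy
    (fun i _ => hp ▸ hE _ _ (hWE false i)) (fun i _ => hq ▸ hE _ _ (hWE true i))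
    (fun i hi => hE _ _ (hWW i hi))
    (fun i _ => hp ▸ hE _ _ (hXE false i)) (fun i hi => hE _ _ (hWX false i hi))
    (fun i hi => hE _ _ (hWX' false i hi))
    (fun i _ => hq ▸ hE _ _ (hXE true i)) (fun i hi => hE _ _ (hWX true i hi))
    (fun i hi => hE _ _ (hWX' true i hi))

end Pool.Agent.MPfe1b94.TW
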