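import Pool.Agent.Work.MP_fe1b94_co.Strip
import Pool.Agent.Work.MP_5e4e5a_co.Stmts

/-!
The strip graph has treewidth at most three.
-/

set_option autoImplicit false

namespace Pool.Agent.MPfe1b94.TW

open SimpleGraph Pool.Agent.IForest
open Pool.Agent.Work.MP_fe1b94_co.H65 (Vtx E stripGraph)

variable {W : Type}

/-- The graph of a parent function. -/
def parGraph (par : W → Option W) (hp : ∀ a, par a ≠ some a) : SimpleGraph W where
  Adj a b := par a = some b ∨ par b = some a
  symm := ⟨fun _ _ h => h.symm⟩
  loopless := ⟨fun a h => h.elim (hp a) (hp a)⟩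

/-- `Desc par x y`: the point `x` is an ancestor of `y`, or equal to `y`. -/
inductive Desc (par : W → Option W) (x : W) : W → Prop
  | self : Desc par x x
  | step (y z : W) (h : par y = some z) (h' : Desc par x z) : Desc par x y

theorem Desc.rank {par : W → Option W} {rk : W → ℕ} (h : ∀ a b, par a = some b → rk b < rk a)
    {x y : W} (hd : Desc par x y) : rk x ≤ rk y := by
  induction hd with
  | self => exact le_rfl
  | step y z h1 _ ih => exact ih.trans (h _ _ h1).le

theorem parGraph_isTree (par : W → Option W) (rk : W → ℕ)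
    (h : ∀ a b, par a = some b → rk b < rk a) (root : W) (hroot : ∀ a, par a = none → a = root)
    (hp : ∀ a, par a ≠ some a) : (parGraph par hp).IsTree := by
  constructor
  · rw [connected_iff]
    refine ⟨?_, ⟨root⟩⟩
    have key : ∀ n a, rk a = n → (parGraph par hp).Reachable a root := by
      intro n
      induction n using Nat.strong_induction_on with
      | _ n ih =>
        intro a ha
        cases e : par a with
        | none => rw [hroot a e]
        | some b =>
          have h1 : (parGraph par hp).Adj a b := Or.inl e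
          exact h1.reachable.trans (ih _ (ha ▸ h _ _ e) b rfl)
    intro a b
    exact (key _ a rfl).trans (key _ b rfl).symm
  · rw [isAcyclic_iff_forall_adj_isBridge]
    have key : ∀ x z, par x = some z → (parGraph par hp).IsBridge s(x, z) := by
      intro x z hxz
      rw [isBridge_iff]
      intro hr
      have h1 : ∀ a b, ((parGraph par hp).deleteEdges {s(x, z)}).Adj a b →
          (Desc par x a ↔ Desc par x b) := by
        have h2 : ∀ a b, par a = some b → s(a, b) ≠ s(x, z) → (Desc par x a ↔ Desc par x b) := by
          intro a b hab hne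
          constructor
          · intro hd
            cases hd with
            | self =>
              rw [hxz] at hab
              exact absurd (by rw [Option.some.inj hab]) hne
            | step _ c h3 h4 =>
              rw [hab] at h3
              rwa [Option.some.inj h3]
          · intro hd
            exact Desc.step _ _ hab hd
        intro a b hab
        rw [deleteEdges_adj] at hab
        obtain ⟨hab | hab, h3⟩ := hab
        · exact h2 a b hab (by simpa using h3)
        · refine (h2 b a hab ?_).symm
          rw [Sym2.eq_swap]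
          simpa using h3
      have h2' : ∀ u v, ((parGraph par hp).deleteEdges {s(x, z)}).Walk u v →
          (Desc par x u ↔ Desc par x v) := by
        intro u v p
        induction p with
        | nil => exact Iff.rfl
        | cons hab _ ih => exact (h1 _ _ hab).trans ih
      have h2 : Desc par x x ↔ Desc par x z := by
        obtain ⟨p⟩ := hr
        exact h2' _ _ p
      have h3 := Desc.rank h (h2.1 Desc.self)
      exact absurd (h _ _ hxz) (by omega)
    rintro a b (hab | hab)
    · exact key a b hab
    · rw [Sym2.eq_swap]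
      exact key b a hab

/-- A set closed under taking parents up to its top element is connected. -/
theorem parGraph_preconnected (par : W → Option W) (rk : W → ℕ)
    (h : ∀ a b, par a = some b → rk b < rk a) (hp : ∀ a, par a ≠ some a) (S : Set W) (r : W)
    (hr : r ∈ S) (hS : ∀ a ∈ S, a ≠ r → ∃ b ∈ S, par a = some b) :
    ((parGraph par hp).induce S).Preconnected := by
  have key : ∀ n (a : W) (ha : a ∈ S), rk a = n →
      ((parGraph par hp).induce S).Reachable ⟨a, ha⟩ ⟨r, hr⟩ := by
    intro n
    induction n using Nat.strong_induction_on with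
    | _ n ih =>
      intro a ha hn
      by_cases har : a = r
      · subst har; exact Reachable.refl _
      · obtain ⟨b, hb, hab⟩ := hS a ha har
        have h1 : ((parGraph par hp).induce S).Adj ⟨a, ha⟩ ⟨b, hb⟩ := Or.inl hab
        exact h1.reachable.trans (ih _ (hn ▸ h _ _ hab) b hb rfl)
  intro a b
  exact (key _ a.1 a.2 rfl).trans (key _ b.1 b.2 rfl).symm

/-- the parent function -/
def sPar (n : ℕ) (k : Fin (3 * n)) : Option (Fin (3 * n)) :=
  if k.val = 0 then none
  else some ⟨if k.val % 3 = 0 then k.val - 3 else 3 * (k.val / 3), by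
    have := k.isLt
    split <;> omega⟩

theorem sPar_lt (n : ℕ) (a b : Fin (3 * n)) (h : sPar n a = some b) : b.val < a.val := by
  unfold sPar at h
  split at h
  · exact absurd h (by simp)
  · rename_i h0
    have := congrArg Fin.val (Option.some.inj h)
    simp only at this
    split at this <;> omega

open Classical in
/-- the bags -/
noncomputable def sBag (n : ℕ) (k : Fin (3 * n)) : Finset (Vtx n) :=
  if k.val % 3 = 0 then {.pole false, .pole true, .w ⟨k.val / 3, by have := k.isLt; omega⟩,
    .w ⟨k.val / 3 + 1, by have := k.isLt; omega⟩}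
  else if k.val % 3 = 1 then {.pole false, .x false ⟨k.val / 3, by have := k.isLt; omega⟩,
    .w ⟨k.val / 3, by have := k.isLt; omega⟩, .w ⟨k.val / 3 + 1, by have := k.isLt; omega⟩}
  else {.pole true, .x true ⟨k.val / 3, by have := k.isLt; omega⟩,
    .w ⟨k.val / 3, by have := k.isLt; omega⟩, .w ⟨k.val / 3 + 1, by have := k.isLt; omega⟩}

theorem sBag_card (n : ℕ) (k : Fin (3 * n)) : (sBag n k).card ≤ 4 := by
  classical
  unfold sBag
  split
  · exact Finset.card_le_four
  · split
    · exact Finset.card_le_four
    · exact Finset.card_le_four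

/-- membership in a bag -/
def InBag (n : ℕ) (k : Fin (3 * n)) : Vtx n → Prop
  | .pole false => k.val % 3 ≠ 2
  | .pole true => k.val % 3 ≠ 1
  | .w m => k.val / 3 = m.val ∨ k.val / 3 + 1 = m.val
  | .x false m => k.val % 3 = 1 ∧ k.val / 3 = m.val
  | .x true m => k.val % 3 = 2 ∧ k.val / 3 = m.val

theorem mem_sBag (n : ℕ) (k : Fin (3 * n)) (v : Vtx n) : v ∈ sBag n k ↔ InBag n k v := by
  classical
  have hm : k.val % 3 = 0 ∨ k.val % 3 = 1 ∨ k.val % 3 = 2 := by omega
  rcases v with s | m | ⟨s, m⟩
  · rcases s with _ | _ <;> rcases hm with h | h | h <;> simp [sBag, InBag, h]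
  · rcases hm with h | h | h <;> simp [sBag, InBag, h, Fin.ext_iff, eq_comm]
  · rcases s with _ | _ <;> rcases hm with h | h | h <;>
      simp [sBag, InBag, h, Fin.ext_iff, eq_comm]

theorem stripGraph_treewidth (n : ℕ) (hn : 1 ≤ n) : TreewidthLE (stripGraph n) 3 := by
  have hp : ∀ a, sPar n a ≠ some a := fun a h => absurd (sPar_lt n a a h) (by omega)
  refine ⟨3 * n, parGraph (sPar n) hp, sBag n, ?_, sBag_card n, ?_, ?_, ?_⟩
  · refine parGraph_isTree _ (fun k => k.val) (sPar_lt n) ⟨0, by omega⟩ ?_ hp
    intro a ha
    unfold sPar at ha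
    split at ha
    · exact Fin.ext (by assumption)
    · exact absurd ha (by simp)
  · intro v
    rcases v with s | m | ⟨s, m⟩
    · refine ⟨⟨0, by omega⟩, (mem_sBag _ _ _).mpr ?_⟩
      rcases s with _ | _ <;> simp [InBag]
    · by_cases hm : m.val < n
      · refine ⟨⟨3 * m.val, by omega⟩, (mem_sBag _ _ _).mpr ?_⟩
        show 3 * m.val / 3 = m.val ∨ 3 * m.val / 3 + 1 = m.val
        omega
      · refine ⟨⟨3 * (n - 1), by omega⟩, (mem_sBag _ _ _).mpr ?_⟩
        show 3 * (n - 1) / 3 = m.val ∨ 3 * (n - 1) / 3 + 1 = m.val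
        have := m.isLt
        omega
    · have := m.isLt
      rcases s with _ | _
      · refine ⟨⟨3 * m.val + 1, by omega⟩, (mem_sBag _ _ _).mpr ?_⟩
        show (3 * m.val + 1) % 3 = 1 ∧ (3 * m.val + 1) / 3 = m.val
        omega
      · refine ⟨⟨3 * m.val + 2, by omega⟩, (mem_sBag _ _ _).mpr ?_⟩
        show (3 * m.val + 2) % 3 = 2 ∧ (3 * m.val + 2) / 3 = m.val
        omega
  · have main : ∀ u v, E u v → ∃ i, u ∈ sBag n i ∧ v ∈ sBag n i := by
      intro u v huv
      simp only [mem_sBag]
      rcases u with s | m | ⟨s, m⟩ <;> rcases v with s' | m' | ⟨s', m'⟩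
      · exact absurd huv id
      · by_cases hm : m'.val < n
        · refine ⟨⟨3 * m'.val, by omega⟩, ?_, ?_⟩
          · rcases s with _ | _ <;> simp [InBag]
          · show 3 * m'.val / 3 = m'.val ∨ 3 * m'.val / 3 + 1 = m'.val
            omega
        · refine ⟨⟨3 * (n - 1), by omega⟩, ?_, ?_⟩
          · rcases s with _ | _ <;> simp [InBag]
          · show 3 * (n - 1) / 3 = m'.val ∨ 3 * (n - 1) / 3 + 1 = m'.val
            have := m'.isLt
            omega
      · have hs : s = s' := huv
        subst hs
        have := m'.isLt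
        rcases s with _ | _
        · refine ⟨⟨3 * m'.val + 1, by omega⟩, ?_, ?_⟩
          · show (3 * m'.val + 1) % 3 ≠ 2
            omega
          · show (3 * m'.val + 1) % 3 = 1 ∧ (3 * m'.val + 1) / 3 = m'.val
            omega
        · refine ⟨⟨3 * m'.val + 2, by omega⟩, ?_, ?_⟩
          · show (3 * m'.val + 2) % 3 ≠ 1
            omega
          · show (3 * m'.val + 2) % 3 = 2 ∧ (3 * m'.val + 2) / 3 = m'.val
            omega
      · exact absurd huv id
      · have hs : m'.val = m.val + 1 := huv
        have := m'.isLt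
        refine ⟨⟨3 * m.val, by omega⟩, ?_, ?_⟩
        · show 3 * m.val / 3 = m.val ∨ 3 * m.val / 3 + 1 = m.val
          omega
        · show 3 * m.val / 3 = m'.val ∨ 3 * m.val / 3 + 1 = m'.val
          omega
      · have hs : m.val = m'.val ∨ m.val = m'.val + 1 := huv
        have := m'.isLt
        rcases s' with _ | _
        · refine ⟨⟨3 * m'.val + 1, by omega⟩, ?_, ?_⟩
          · show (3 * m'.val + 1) / 3 = m.val ∨ (3 * m'.val + 1) / 3 + 1 = m.val
            omega
          · show (3 * m'.val + 1) % 3 = 1 ∧ (3 * m'.val + 1) / 3 = m'.val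
            omega
        · refine ⟨⟨3 * m'.val + 2, by omega⟩, ?_, ?_⟩
          · show (3 * m'.val + 2) / 3 = m.val ∨ (3 * m'.val + 2) / 3 + 1 = m.val
            omega
          · show (3 * m'.val + 2) % 3 = 2 ∧ (3 * m'.val + 2) / 3 = m'.val
            omega
      · exact absurd huv id
      · exact absurd huv id
      · exact absurd huv id
    rintro u v (h | h)
    · exact main u v h
    · obtain ⟨i, h1, h2⟩ := main v u h
      exact ⟨i, h2, h1⟩
  · have step : ∀ (S : Set (Fin (3 * n))) (r : Fin (3 * n)), r ∈ S →
        (∀ a ∈ S, a ≠ r → ∃ b ∈ S, sPar n a = some b) →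
        ((parGraph (sPar n) hp).induce S).Preconnected := fun S r hr hS =>
      parGraph_preconnected _ (fun k => k.val) (sPar_lt n) hp S r hr hS
    have hne : ∀ a r : Fin (3 * n), a ≠ r → a.val ≠ r.val := fun a r h h' => h (Fin.ext h')
    have hpar : ∀ a : Fin (3 * n), ∀ b : ℕ, a.val ≠ 0 →
        (b = if a.val % 3 = 0 then a.val - 3 else 3 * (a.val / 3)) → ∃ hb : b < 3 * n,
          sPar n a = some ⟨b, hb⟩ := by
      intro a b ha hb
      have h1 := a.isLt
      refine ⟨by split at hb <;> omega, ?_⟩
      unfold sPar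
      rw [if_neg ha]
      subst hb
      rfl
    intro v
    have hset : {i | v ∈ sBag n i} = {i | InBag n i v} := by
      ext i
      exact mem_sBag n i v
    rw [hset]
    rcases v with s | m | ⟨s, m⟩
    · rcases s with _ | _
      · refine step _ ⟨0, by omega⟩ (show 0 % 3 ≠ 2 by omega) ?_
        intro a ha har
        have ha' : a.val % 3 ≠ 2 := ha
        have h0 : a.val ≠ 0 := hne a _ har
        by_cases h3 : a.val % 3 = 0
        · obtain ⟨hb, he⟩ := hpar a (a.val - 3) h0 (by rw [if_pos h3])
          exact ⟨_, (show (a.val - 3) % 3 ≠ 2 by omega), he⟩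
        · obtain ⟨hb, he⟩ := hpar a (3 * (a.val / 3)) h0 (by rw [if_neg h3])
          exact ⟨_, (show (3 * (a.val / 3)) % 3 ≠ 2 by omega), he⟩
      · refine step _ ⟨0, by omega⟩ (show 0 % 3 ≠ 1 by omega) ?_
        intro a ha har
        have ha' : a.val % 3 ≠ 1 := ha
        have h0 : a.val ≠ 0 := hne a _ har
        by_cases h3 : a.val % 3 = 0
        · obtain ⟨hb, he⟩ := hpar a (a.val - 3) h0 (by rw [if_pos h3])
          exact ⟨_, (show (a.val - 3) % 3 ≠ 1 by omega), he⟩
        · obtain ⟨hb, he⟩ := hpar a (3 * (a.val / 3)) h0 (by rw [if_neg h3])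
          exact ⟨_, (show (3 * (a.val / 3)) % 3 ≠ 1 by omega), he⟩
    · have hmn := m.isLt
      refine step _ ⟨3 * (m.val - 1), by omega⟩
        (show 3 * (m.val - 1) / 3 = m.val ∨ 3 * (m.val - 1) / 3 + 1 = m.val by omega) ?_
      intro a ha har
      have ha' : a.val / 3 = m.val ∨ a.val / 3 + 1 = m.val := ha
      have h1 : a.val ≠ 3 * (m.val - 1) := hne a _ har
      have h0 : a.val ≠ 0 := by omega
      by_cases h3 : a.val % 3 = 0
      · obtain ⟨hb, he⟩ := hpar a (a.val - 3) h0 (by rw [if_pos h3])
        exact ⟨_, (show (a.val - 3) / 3 = m.val ∨ (a.val - 3) / 3 + 1 = m.val by omega), he⟩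
      · obtain ⟨hb, he⟩ := hpar a (3 * (a.val / 3)) h0 (by rw [if_neg h3])
        exact ⟨_, (show 3 * (a.val / 3) / 3 = m.val ∨ 3 * (a.val / 3) / 3 + 1 = m.val by omega),
          he⟩
    · have hmn := m.isLt
      rcases s with _ | _
      · refine step _ ⟨3 * m.val + 1, by omega⟩
          (show (3 * m.val + 1) % 3 = 1 ∧ (3 * m.val + 1) / 3 = m.val by omega) ?_
        intro a ha har
        have ha' : a.val % 3 = 1 ∧ a.val / 3 = m.val := ha
        have h1 : a.val ≠ 3 * m.val + 1 := hne a _ har
        omega
      · refine step _ ⟨3 * m.val + 2, by omega⟩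
          (show (3 * m.val + 2) % 3 = 2 ∧ (3 * m.val + 2) / 3 = m.val by omega) ?_
        intro a ha har
        have ha' : a.val % 3 = 2 ∧ a.val / 3 = m.val := ha
        have h1 : a.val ≠ 3 * m.val + 2 := hne a _ har
        omega

end Pool.Agent.MPfe1b94.TW
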