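import Pool.Agent.Work.MP_fe1b94_co.Defs
import Pool.Agent.Work.MP_5e4e5a_co.ItemB

/-!
Every `2 t`-fold cover of a graph of treewidth at most `t` has a packing.
-/

set_option autoImplicit false

namespace Pool.Agent.MPfe1b94.TW

open Finset Function Pool.Agent.IForest

theorem corr_extend {V : Type} {G : SimpleGraph V} (t : ℕ) (M : Cover G (2 * t))
    (v : V) (B : Finset V) (hB : B.card ≤ t) (hBadj : ∀ b ∈ B, G.Adj b v)
    (σ : V → Fin (2 * t) → Fin (2 * t)) (hσ : ∀ b ∈ B, Injective (σ b)) :
    ∃ r : Fin (2 * t) → Fin (2 * t), Injective r ∧ ∀ b ∈ B, ∀ i, ¬ M.rel b v (σ b i) (r i) := by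
  classical
  -- the forbidden colours of a position
  have hf : ∀ (b : V) (i : Fin (2 * t)), ∃ F : Finset (Fin (2 * t)), b ∈ B →
      F.card ≤ 1 ∧ ∀ c, M.rel b v (σ b i) c ↔ c ∈ F := by
    intro b i
    by_cases hb : b ∈ B
    · by_cases h : ∃ c, M.rel b v (σ b i) c
      · obtain ⟨c, hc⟩ := h
        refine ⟨{c}, fun _ => ⟨by simp, fun c' => ?_⟩⟩
        rw [Finset.mem_singleton]
        exact ⟨fun hc' => M.unique b v _ _ _ (hBadj b hb) hc' hc, fun e => e ▸ hc⟩
      · exact ⟨∅, fun _ => ⟨by simp, fun c => ⟨fun hc => absurd ⟨c, hc⟩ h,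
          fun hc => absurd hc (Finset.notMem_empty c)⟩⟩⟩
    · exact ⟨∅, fun h => absurd h hb⟩
  choose F hF using hf
  let al : Fin (2 * t) → Finset (Fin (2 * t)) := fun i => Finset.univ \ B.biUnion fun b => F b i
  have hall : ∀ X : Finset (Fin (2 * t)), X.card ≤ (X.biUnion al).card := by
    intro X
    by_contra hlt
    rw [not_le] at hlt
    have hpos : 0 < X.card := by omega
    obtain ⟨i0, hi0⟩ := Finset.card_pos.mp hpos
    have h1 : t ≤ (X.biUnion al).card := by
      have e1 : (al i0).card ≤ (X.biUnion al).card :=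
        Finset.card_le_card (Finset.subset_biUnion_of_mem al hi0)
      have e2 : (Finset.univ : Finset (Fin (2 * t))).card - (B.biUnion fun b => F b i0).card ≤
          (al i0).card := Finset.le_card_sdiff _ _
      have e3 : (B.biUnion fun b => F b i0).card ≤ B.card * 1 :=
        Finset.card_biUnion_le_card_mul _ _ _ fun b hb => (hF b i0 hb).1
      rw [Finset.card_univ, Fintype.card_fin] at e2
      omega
    have hXn : X.card ≤ 2 * t := by simpa using Finset.card_le_univ X
    obtain ⟨c, -, hc⟩ := Finset.exists_mem_notMem_of_card_lt_card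
      (show (X.biUnion al).card < (Finset.univ : Finset (Fin (2 * t))).card by
        rw [Finset.card_univ, Fintype.card_fin]; omega)
    have h2 : ∀ i, ∃ b : V, i ∈ X → b ∈ B ∧ M.rel b v (σ b i) c := by
      intro i
      by_cases hi : i ∈ X
      · have h3 : c ∉ al i := fun h => hc (Finset.mem_biUnion.mpr ⟨i, hi, h⟩)
        have h4 : c ∈ B.biUnion fun b => F b i := by
          by_contra h
          exact h3 (Finset.mem_sdiff.mpr ⟨Finset.mem_univ _, h⟩)
        obtain ⟨b, hb, hcb⟩ := Finset.mem_biUnion.mp h4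
        exact ⟨b, fun _ => ⟨hb, ((hF b i hb).2 c).mpr hcb⟩⟩
      · exact ⟨v, fun h => absurd h hi⟩
    choose g hg using h2
    have h3 : X.card ≤ B.card := by
      apply Finset.card_le_card_of_injOn g
      · intro i hi
        exact (hg i hi).1
      · intro i hi i' hi' he
        have e1 := (hg i hi).2
        have e2 := (hg i' hi').2
        rw [← he] at e2
        have hadj := hBadj _ (hg i hi).1
        exact hσ _ (hg i hi).1 (M.unique v (g i) c _ _ hadj.symm
          (M.symm _ _ _ _ hadj e1) (M.symm _ _ _ _ hadj e2))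
    omega
  obtain ⟨r, hr, hrt⟩ := (Finset.all_card_le_biUnion_card_iff_exists_injective al).mp hall
  refine ⟨r, hr, fun b hb i h => ?_⟩
  exact (Finset.mem_sdiff.mp (hrt i)).2 (Finset.mem_biUnion.mpr ⟨b, hb, ((hF b i hb).2 _).mp h⟩)

/-- Induction along an elimination ordering. -/
theorem exists_corr {V : Type} [Fintype V] [DecidableEq V] {G : SimpleGraph V} (t : ℕ)
    (M : Cover G (2 * t)) :
    ∀ (m : ℕ) (H : SimpleGraph V) (A : Finset V), G ≤ H → A.card = m → HasTD t H A →
      ∃ σ : V → Fin (2 * t) → Fin (2 * t), (∀ v ∈ A, Injective (σ v)) ∧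
        ∀ u ∈ A, ∀ v ∈ A, G.Adj u v → ∀ i, ¬ M.rel u v (σ u i) (σ v i) := by
  classical
  intro m
  induction m with
  | zero =>
    intro H A _ hA _
    rw [Finset.card_eq_zero] at hA
    subst hA
    exact ⟨fun _ i => i, by simp, by simp⟩
  | succ m ih =>
    intro H A hGH hA hTD
    have hne : A.Nonempty := Finset.card_pos.mp (by omega)
    obtain ⟨v, hv, B, hBA, hvB, hBc, hN, hTD'⟩ := prB V t H A hTD hne
    obtain ⟨σ, hs1, hs2⟩ := ih _ (A.erase v) (hGH.trans le_sup_left)
      (by rw [Finset.card_erase_of_mem hv]; omega) hTD'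
    obtain ⟨r, r1, r2⟩ := corr_extend t M v (B.filter fun b => G.Adj b v)
      ((Finset.card_filter_le _ _).trans hBc) (fun b hb => (Finset.mem_filter.mp hb).2) σ
      (fun b hb => hs1 b (Finset.mem_erase.mpr ⟨fun h => hvB (h ▸ (Finset.mem_filter.mp hb).1),
        hBA (Finset.mem_filter.mp hb).1⟩))
    have hv' : Function.update σ v r v = r := by simp
    have hne' : ∀ x, x ≠ v → Function.update σ v r x = σ x := fun x hx => by simp [hx]
    have hin : ∀ x ∈ A, x ≠ v → x ∈ A.erase v := fun x hx hxv =>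
      Finset.mem_erase.mpr ⟨hxv, hx⟩
    have hnb : ∀ x ∈ A, G.Adj x v → x ∈ B.filter fun b => G.Adj b v := fun x hx h =>
      Finset.mem_filter.mpr ⟨hN x hx (hGH h.symm), h⟩
    refine ⟨Function.update σ v r, ?_, ?_⟩
    · intro x hx
      by_cases hxv : x = v
      · subst hxv; rw [hv']; exact r1
      · rw [hne' x hxv]; exact hs1 x (hin x hx hxv)
    · intro x hx y hy hxy i
      by_cases hxv : x = v
      · subst hxv
        rw [hv', hne' y hxy.ne']
        intro h
        exact r2 y (hnb y hy hxy.symm) i (M.symm _ _ _ _ hxy h)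
      · by_cases hyv : y = v
        · subst hyv
          rw [hv', hne' x hxv]
          exact r2 x (hnb x hx hxy) i
        · rw [hne' x hxv, hne' y hyv]
          exact hs2 x (hin x hx hxv) y (hin y hy hyv) hxy i

/-- Every `2 t`-fold cover of a graph of treewidth at most `t` has a packing. -/
theorem corrPackable_treewidth {V : Type} [Fintype V] (G : SimpleGraph V) (t : ℕ)
    (hT : TreewidthLE G t) : CorrPackable G (2 * t) := by
  classical
  intro M
  obtain ⟨n, T, bag, h1, h2, h3, h4, h5⟩ := hT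
  obtain ⟨σ, hσ1, hσ2⟩ := exists_corr t M (Finset.univ : Finset V).card G Finset.univ le_rfl rfl
    ⟨n, T, bag, h1, h2, fun v _ => h3 v, fun u _ v _ => h4 u v, fun v _ => h5 v⟩
  refine ⟨fun i v => σ v i, fun i u v huv => hσ2 u (Finset.mem_univ u) v (Finset.mem_univ v)
    huv i, ?_⟩
  intro i j hij v heq
  exact hij (hσ1 v (Finset.mem_univ v) heq)

end Pool.Agent.MPfe1b94.TW
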