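import Mathlib

/-!
The key lemma: three injective rows of length five which are pairwise different in each position
and have no common block of size three can be completed by a fourth row from a list of five
colours such that every three rows containing the new one have no common block either.
-/

set_option autoImplicit false

namespace Pool.Agent.MPfe1b94.TW

open Finset Function

variable {C : Type} [DecidableEq C]

/-- Three rows have a common block: a set of three positions with the same set of entries in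
each of the rows. -/
def Bad (s1 s2 s3 : Fin 5 → C) : Prop :=
  ∃ A : Finset (Fin 5), A.card = 3 ∧ A.image s1 = A.image s2 ∧ A.image s2 = A.image s3

theorem Bad.swap12 {s1 s2 s3 : Fin 5 → C} (h : Bad s1 s2 s3) : Bad s2 s1 s3 := by
  obtain ⟨A, h1, h2, h3⟩ := h
  exact ⟨A, h1, h2.symm, h2.trans h3⟩

theorem Bad.swap23 {s1 s2 s3 : Fin 5 → C} (h : Bad s1 s2 s3) : Bad s1 s3 s2 := by
  obtain ⟨A, h1, h2, h3⟩ := h
  exact ⟨A, h1, h2.trans h3, h3.symm⟩

theorem perfect (L : Finset C) (hL : L.card = 5) (s1 s2 s3 : Fin 5 → C)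
    (h1 : Injective s1) (h2 : Injective s2) (h3 : Injective s3) (hg : ¬ Bad s1 s2 s3) :
    ∃ s : Fin 5 → C, Injective s ∧ ∀ j, s j ∈ L ∧ s j ≠ s1 j ∧ s j ≠ s2 j ∧ s j ≠ s3 j := by
  set t : Fin 5 → Finset C := fun j => L \ {s1 j, s2 j, s3 j} with ht
  have hall : ∀ X : Finset (Fin 5), X.card ≤ (X.biUnion t).card := by
    intro X
    by_contra hlt
    rw [not_le] at hlt
    have hN : X.biUnion t ⊆ L := by
      intro c hc
      obtain ⟨j, -, hj⟩ := Finset.mem_biUnion.mp hc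
      exact (Finset.mem_sdiff.mp hj).1
    have hX5 : X.card ≤ 5 := by simpa using Finset.card_le_univ X
    have hpos : 0 < X.card := by omega
    obtain ⟨j0, hj0⟩ := Finset.card_pos.mp hpos
    have h2N : 2 ≤ (X.biUnion t).card := by
      have e1 : (t j0).card ≤ (X.biUnion t).card :=
        Finset.card_le_card (Finset.subset_biUnion_of_mem t hj0)
      have e2 : L.card - ({s1 j0, s2 j0, s3 j0} : Finset C).card ≤ (t j0).card :=
        Finset.le_card_sdiff _ _
      have e3 : ({s1 j0, s2 j0, s3 j0} : Finset C).card ≤ 3 := Finset.card_le_three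
      omega
    set D := L \ X.biUnion t with hD
    have hDc : D.card + (X.biUnion t).card = 5 := by
      have := Finset.card_sdiff_add_card_eq_card hN
      rw [← hD] at this
      omega
    -- every colour of `D` is forbidden at every position of `X`
    have hforb : ∀ c ∈ D, ∀ j ∈ X, s1 j = c ∨ s2 j = c ∨ s3 j = c := by
      intro c hc j hj
      by_contra hcon
      push Not at hcon
      obtain ⟨hc1, hc2⟩ := Finset.mem_sdiff.mp hc
      apply hc2
      refine Finset.mem_biUnion.mpr ⟨j, hj, Finset.mem_sdiff.mpr ⟨hc1, ?_⟩⟩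
      simp only [Finset.mem_insert, Finset.mem_singleton, not_or]
      exact ⟨fun h => hcon.1 h.symm, fun h => hcon.2.1 h.symm, fun h => hcon.2.2 h.symm⟩
    have hone : ∀ (f : Fin 5 → C), Injective f → ∀ c, (X.filter fun j => f j = c).card ≤ 1 := by
      intro f hf c
      rw [Finset.card_le_one]
      intro a ha b hb
      exact hf ((Finset.mem_filter.mp ha).2.trans (Finset.mem_filter.mp hb).2.symm)
    have hsum : ∀ c ∈ D, X.card ≤ (X.filter fun j => s1 j = c).card +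
        (X.filter fun j => s2 j = c).card + (X.filter fun j => s3 j = c).card := by
      intro c hc
      calc X.card ≤ ((X.filter fun j => s1 j = c) ∪ (X.filter fun j => s2 j = c) ∪
            (X.filter fun j => s3 j = c)).card := by
            apply Finset.card_le_card
            intro j hj
            rcases hforb c hc j hj with h | h | h
            · simp [hj, h]
            · simp [hj, h]
            · simp [hj, h]
        _ ≤ _ := (Finset.card_union_le _ _).trans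
            (Nat.add_le_add_right (Finset.card_union_le _ _) _)
    have hDpos : 0 < D.card := by omega
    obtain ⟨c0, hc0⟩ := Finset.card_pos.mp hDpos
    have hX3 : X.card ≤ 3 := by
      have := hsum c0 hc0
      have a1 := hone s1 h1 c0
      have a2 := hone s2 h2 c0
      have a3 := hone s3 h3 c0
      omega
    have hXe : X.card = 3 := by omega
    have hDe : 3 ≤ D.card := by omega
    have himg : ∀ (f : Fin 5 → C), Injective f →
        (∀ c ∈ D, 1 ≤ (X.filter fun j => f j = c).card) → D = X.image f := by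
      intro f hf hpos
      apply Finset.eq_of_subset_of_card_le
      · intro c hc
        obtain ⟨j, hj⟩ := Finset.card_pos.mp (hpos c hc)
        exact Finset.mem_image.mpr ⟨j, (Finset.mem_filter.mp hj).1, (Finset.mem_filter.mp hj).2⟩
      · rw [Finset.card_image_of_injective _ hf]; omega
    have g1 : D = X.image s1 := himg s1 h1 fun c hc => by
      have := hsum c hc
      have a2 := hone s2 h2 c
      have a3 := hone s3 h3 c
      omega
    have g2 : D = X.image s2 := himg s2 h2 fun c hc => by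
      have := hsum c hc
      have a2 := hone s1 h1 c
      have a3 := hone s3 h3 c
      omega
    have g3 : D = X.image s3 := himg s3 h3 fun c hc => by
      have := hsum c hc
      have a2 := hone s1 h1 c
      have a3 := hone s2 h2 c
      omega
    exact hg ⟨X, hXe, g1.symm.trans g2, g2.symm.trans g3⟩
  obtain ⟨s, hs, hst⟩ := (Finset.all_card_le_biUnion_card_iff_exists_injective t).mp hall
  refine ⟨s, hs, fun j => ?_⟩
  have := Finset.mem_sdiff.mp (hst j)
  simp only [Finset.mem_insert, Finset.mem_singleton, not_or] at this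
  exact ⟨this.1, this.2.1, this.2.2.1, this.2.2.2⟩

theorem inj5 {X : Type} (a0 a1 a2 u v : X) (h01 : a0 ≠ a1) (h02 : a0 ≠ a2) (h0u : a0 ≠ u)
    (h0v : a0 ≠ v) (h12 : a1 ≠ a2) (h1u : a1 ≠ u) (h1v : a1 ≠ v) (h2u : a2 ≠ u) (h2v : a2 ≠ v)
    (huv : u ≠ v) : Injective (![a0, a1, a2, u, v] : Fin 5 → X) := by
  intro i j hij
  fin_cases i <;> fin_cases j <;> first
    | rfl
    | exact absurd hij h01
    | exact absurd hij h02
    | exact absurd hij h0u
    | exact absurd hij h0v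
    | exact absurd hij h12
    | exact absurd hij h1u
    | exact absurd hij h1v
    | exact absurd hij h2u
    | exact absurd hij h2v
    | exact absurd hij huv
    | exact absurd hij h01.symm
    | exact absurd hij h02.symm
    | exact absurd hij h0u.symm
    | exact absurd hij h0v.symm
    | exact absurd hij h12.symm
    | exact absurd hij h1u.symm
    | exact absurd hij h1v.symm
    | exact absurd hij h2u.symm
    | exact absurd hij h2v.symm
    | exact absurd hij huv.symm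

/-- Two positions, two colours and one forbidden row. -/
theorem two_choice (y z p q : C) (hyz : y ≠ z) (hpq : p ≠ q) :
    ∃ a b : C, a ≠ b ∧ (a = y ∨ a = z) ∧ (b = y ∨ b = z) ∧ a ≠ p ∧ b ≠ q := by
  by_cases h : y ≠ p ∧ z ≠ q
  · exact ⟨y, z, hyz, Or.inl rfl, Or.inr rfl, h.1, h.2⟩
  · refine ⟨z, y, hyz.symm, Or.inr rfl, Or.inl rfl, ?_, ?_⟩
    · rintro rfl
      apply h
      exact ⟨hyz, hpq⟩
    · rintro rfl
      apply h
      exact ⟨hpq.symm, hyz.symm⟩

/-- The construction in the active case. -/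
theorem active (L : Finset C) (hL : L.card = 5) (s1 s2 s3 : Fin 5 → C)
    (h1 : Injective s1) (h2 : Injective s2) (h3 : Injective s3)
    (h12 : ∀ j, s1 j ≠ s2 j) (A : Finset (Fin 5)) (hA : A.card = 3)
    (hA12 : A.image s1 = A.image s2) (hAL : A.image s1 ⊆ L)
    (hact : ∀ a ∈ A, s3 a ∉ A.image s1) :
    ∃ s : Fin 5 → C, Injective s ∧ (∀ j, s j ∈ L ∧ s j ≠ s1 j ∧ s j ≠ s2 j ∧ s j ≠ s3 j) ∧
      (∃ a ∈ A, s a ∉ A.image s1) ∧ ∀ j ∉ A, s j ∈ A.image s1 := by
  set B := A.image s1 with hB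
  have hBc : B.card = 3 := by rw [hB, Finset.card_image_of_injective _ h1, hA]
  obtain ⟨a0, a1, a2, h01, h02, h12', rfl⟩ := Finset.card_eq_three.mp hA
  have hAc : ({a0, a1, a2} : Finset (Fin 5))ᶜ.card = 2 := by
    rw [Finset.card_compl, hA]; rfl
  obtain ⟨u, v, huv, hAuv⟩ := Finset.card_eq_two.mp hAc
  have hu : u ∉ ({a0, a1, a2} : Finset (Fin 5)) := by
    rw [← Finset.mem_compl, hAuv]; simp
  have hv : v ∉ ({a0, a1, a2} : Finset (Fin 5)) := by
    rw [← Finset.mem_compl, hAuv]; simp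
  have hLB : (L \ B).card = 2 := by
    have := Finset.card_sdiff_add_card_eq_card hAL
    omega
  obtain ⟨y, z, hyz, hLyz⟩ := Finset.card_eq_two.mp hLB
  -- the third colour at `a2`
  have hm1 : s1 a2 ∈ B := Finset.mem_image.mpr ⟨a2, by simp, rfl⟩
  have hm2 : s2 a2 ∈ B := by rw [hA12]; exact Finset.mem_image.mpr ⟨a2, by simp, rfl⟩
  have hc2 : (B \ {s1 a2, s2 a2}).card = 1 := by
    have hsub : ({s1 a2, s2 a2} : Finset C) ⊆ B := by
      intro c hc
      simp only [Finset.mem_insert, Finset.mem_singleton] at hc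
      rcases hc with rfl | rfl
      · exact hm1
      · exact hm2
    have := Finset.card_sdiff_add_card_eq_card hsub
    rw [Finset.card_pair (h12 a2)] at this
    omega
  obtain ⟨t2, ht2⟩ := Finset.card_eq_one.mp hc2
  have ht2m : t2 ∈ B \ {s1 a2, s2 a2} := by rw [ht2]; simp
  obtain ⟨ht2B, ht2n⟩ := Finset.mem_sdiff.mp ht2m
  simp only [Finset.mem_insert, Finset.mem_singleton, not_or] at ht2n
  have hBe : (B.erase t2).card = 2 := by rw [Finset.card_erase_of_mem ht2B, hBc]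
  obtain ⟨w, x, hwx, hBwx⟩ := Finset.card_eq_two.mp hBe
  obtain ⟨p0, p1, hp01, hp0, hp1, hp0', hp1'⟩ := two_choice y z (s3 a0) (s3 a1) hyz
    (fun h => h01 (h3 h))
  obtain ⟨q0, q1, hq01, hq0, hq1, hq0', hq1'⟩ := two_choice w x (s3 u) (s3 v) hwx
    (fun h => huv (h3 h))
  have hP : ∀ p, (p = y ∨ p = z) → p ∈ L ∧ p ∉ B := by
    intro p hp
    have : p ∈ L \ B := by
      rw [hLyz]; simpa using hp
    exact Finset.mem_sdiff.mp this
  have hQ : ∀ q, (q = w ∨ q = x) → q ∈ B ∧ q ≠ t2 := by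
    intro q hq
    have : q ∈ B.erase t2 := by
      rw [hBwx]; simpa using hq
    exact ⟨(Finset.mem_erase.mp this).2, (Finset.mem_erase.mp this).1⟩
  obtain ⟨hp0L, hp0B⟩ := hP p0 hp0
  obtain ⟨hp1L, hp1B⟩ := hP p1 hp1
  obtain ⟨hq0B, hq0t⟩ := hQ q0 hq0
  obtain ⟨hq1B, hq1t⟩ := hQ q1 hq1
  simp only [Finset.mem_insert, Finset.mem_singleton, not_or] at hu hv
  -- the positions
  have hcinj : Injective (![a0, a1, a2, u, v] : Fin 5 → Fin 5) :=
    inj5 a0 a1 a2 u v h01 h02 (Ne.symm hu.1) (Ne.symm hv.1) h12' (Ne.symm hu.2.1)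
      (Ne.symm hv.2.1) (Ne.symm hu.2.2) (Ne.symm hv.2.2) huv
  have hcsurj := Finite.injective_iff_surjective.mp hcinj
  let e : Fin 5 ≃ Fin 5 := Equiv.ofBijective _ ⟨hcinj, hcsurj⟩
  let r : Fin 5 → C := ![p0, p1, t2, q0, q1]
  have hr : Injective r := by
    have e1 : p0 ≠ t2 := fun h => hp0B (h ▸ ht2B)
    have e2 : p1 ≠ t2 := fun h => hp1B (h ▸ ht2B)
    have e3 : p0 ≠ q0 := fun h => hp0B (h ▸ hq0B)
    have e4 : p0 ≠ q1 := fun h => hp0B (h ▸ hq1B)
    have e5 : p1 ≠ q0 := fun h => hp1B (h ▸ hq0B)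
    have e6 : p1 ≠ q1 := fun h => hp1B (h ▸ hq1B)
    exact inj5 p0 p1 t2 q0 q1 hp01 e1 e3 e4 e2 e5 e6 (Ne.symm hq0t) (Ne.symm hq1t) hq01
  have hval : ∀ k, (r ∘ e.symm) (e k) = r k := fun k => by simp
  have he0 : e 0 = a0 := rfl
  have he1 : e 1 = a1 := rfl
  have he2 : e 2 = a2 := rfl
  have he3 : e 3 = u := rfl
  have he4 : e 4 = v := rfl
  have v0 : (r ∘ e.symm) a0 = p0 := hval 0
  have v1 : (r ∘ e.symm) a1 = p1 := hval 1
  have v2 : (r ∘ e.symm) a2 = t2 := hval 2
  have v3 : (r ∘ e.symm) u = q0 := hval 3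
  have v4 : (r ∘ e.symm) v = q1 := hval 4
  have hmB1 : ∀ a, (a = a0 ∨ a = a1 ∨ a = a2) → s1 a ∈ B := by
    intro a ha
    exact Finset.mem_image.mpr ⟨a, by simpa using ha, rfl⟩
  have hmB2 : ∀ a, (a = a0 ∨ a = a1 ∨ a = a2) → s2 a ∈ B := by
    intro a ha
    rw [hA12]
    exact Finset.mem_image.mpr ⟨a, by simpa using ha, rfl⟩
  have hnB1 : ∀ a, ¬ (a = a0 ∨ a = a1 ∨ a = a2) → s1 a ∉ B := by
    intro a ha hm
    obtain ⟨b, hb, hab⟩ := Finset.mem_image.mp hm
    apply ha
    have := h1 hab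
    subst this
    simpa using hb
  have hnB2 : ∀ a, ¬ (a = a0 ∨ a = a1 ∨ a = a2) → s2 a ∉ B := by
    intro a ha hm
    rw [hA12] at hm
    obtain ⟨b, hb, hab⟩ := Finset.mem_image.mp hm
    apply ha
    have := h2 hab
    subst this
    simpa using hb
  refine ⟨r ∘ e.symm, hr.comp e.symm.injective, ?_, ⟨a0, by simp, by rw [v0]; exact hp0B⟩, ?_⟩
  · intro j
    obtain ⟨k, rfl⟩ := e.surjective j
    rw [hval k]
    fin_cases k
    · change p0 ∈ L ∧ p0 ≠ s1 a0 ∧ p0 ≠ s2 a0 ∧ p0 ≠ s3 a0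
      exact ⟨hp0L, fun h => hp0B (h ▸ hmB1 a0 (Or.inl rfl)),
        fun h => hp0B (h ▸ hmB2 a0 (Or.inl rfl)), hp0'⟩
    · change p1 ∈ L ∧ p1 ≠ s1 a1 ∧ p1 ≠ s2 a1 ∧ p1 ≠ s3 a1
      exact ⟨hp1L, fun h => hp1B (h ▸ hmB1 a1 (Or.inr (Or.inl rfl))),
        fun h => hp1B (h ▸ hmB2 a1 (Or.inr (Or.inl rfl))), hp1'⟩
    · change t2 ∈ L ∧ t2 ≠ s1 a2 ∧ t2 ≠ s2 a2 ∧ t2 ≠ s3 a2
      refine ⟨hAL ht2B, ht2n.1, ht2n.2, fun h => hact a2 (by simp) (h ▸ ht2B)⟩
    · change q0 ∈ L ∧ q0 ≠ s1 u ∧ q0 ≠ s2 u ∧ q0 ≠ s3 u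
      exact ⟨hAL hq0B, fun h => hnB1 u (fun h => h.elim hu.1 fun h => h.elim hu.2.1 hu.2.2) (h ▸ hq0B),
        fun h => hnB2 u (fun h => h.elim hu.1 fun h => h.elim hu.2.1 hu.2.2) (h ▸ hq0B), hq0'⟩
    · change q1 ∈ L ∧ q1 ≠ s1 v ∧ q1 ≠ s2 v ∧ q1 ≠ s3 v
      exact ⟨hAL hq1B, fun h => hnB1 v (fun h => h.elim hv.1 fun h => h.elim hv.2.1 hv.2.2) (h ▸ hq1B),
        fun h => hnB2 v (fun h => h.elim hv.1 fun h => h.elim hv.2.1 hv.2.2) (h ▸ hq1B), hq1'⟩
  · intro j hj
    rw [← Finset.mem_compl, hAuv] at hj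
    simp only [Finset.mem_insert, Finset.mem_singleton] at hj
    rcases hj with rfl | rfl
    · rw [v3]; exact hq0B
    · rw [v4]; exact hq1B

/-- Two rows which differ in each position have the same entries on at most one set of three
positions. -/
theorem block_unique (s1 s2 : Fin 5 → C) (h1 : Injective s1) (h2 : Injective s2)
    (h12 : ∀ j, s1 j ≠ s2 j) (A A' : Finset (Fin 5)) (hA : A.card = 3) (hA' : A'.card = 3)
    (hA12 : A.image s1 = A.image s2) (hA12' : A'.image s1 = A'.image s2) : A = A' := by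
  have hint : (A ∩ A').image s1 = (A ∩ A').image s2 := by
    rw [Finset.image_inter _ _ h1, Finset.image_inter _ _ h2, hA12, hA12']
  have hsd : (A \ A').image s1 = (A \ A').image s2 := by
    rw [Finset.image_sdiff _ _ h1, Finset.image_sdiff _ _ h2, hA12, hA12']
  have hno : ∀ X : Finset (Fin 5), X.card = 1 → X.image s1 ≠ X.image s2 := by
    intro X hX heq
    obtain ⟨a, rfl⟩ := Finset.card_eq_one.mp hX
    simp only [Finset.image_singleton, Finset.singleton_inj] at heq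
    exact h12 a heq
  have hcard := Finset.card_sdiff_add_card_inter A A'
  have hun : (A ∪ A').card ≤ 5 := by simpa using Finset.card_le_univ (A ∪ A')
  have hui := Finset.card_union_add_card_inter A A'
  have n1 : (A ∩ A').card ≠ 1 := fun h => hno _ h hint
  have n2 : (A \ A').card ≠ 1 := fun h => hno _ h hsd
  have hsub : (A \ A').card = 0 := by omega
  have : A ⊆ A' := Finset.sdiff_eq_empty_iff_subset.mp (Finset.card_eq_zero.mp hsub)
  exact Finset.eq_of_subset_of_card_le this (by omega)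

/-- Four rows which differ in each position, three of which have a common block: the fourth row
has no entry of the block there. -/
theorem fourth (s1 s2 s3 s : Fin 5 → C) (h1 : Injective s1)
    (h12 : ∀ j, s1 j ≠ s2 j) (h13 : ∀ j, s1 j ≠ s3 j) (h23 : ∀ j, s2 j ≠ s3 j)
    (hs : ∀ j, s j ≠ s1 j ∧ s j ≠ s2 j ∧ s j ≠ s3 j)
    (A : Finset (Fin 5)) (hA : A.card = 3) (e1 : A.image s1 = A.image s2)
    (e2 : A.image s2 = A.image s) : ∀ a ∈ A, s3 a ∉ A.image s1 := by
  intro a ha hm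
  have m1 : s1 a ∈ A.image s1 := Finset.mem_image_of_mem _ ha
  have m2 : s2 a ∈ A.image s1 := by rw [e1]; exact Finset.mem_image_of_mem _ ha
  have m4 : s a ∈ A.image s1 := by rw [e1, e2]; exact Finset.mem_image_of_mem _ ha
  have hsub : ({s1 a, s2 a, s3 a, s a} : Finset C) ⊆ A.image s1 := by
    intro c hc
    simp only [Finset.mem_insert, Finset.mem_singleton] at hc
    rcases hc with rfl | rfl | rfl | rfl
    · exact m1
    · exact m2
    · exact hm
    · exact m4
  have hc := Finset.card_le_card hsub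
  rw [Finset.card_image_of_injective _ h1, hA] at hc
  have h4 : ({s1 a, s2 a, s3 a, s a} : Finset C).card = 4 := by
    rw [Finset.card_insert_of_notMem, Finset.card_insert_of_notMem,
      Finset.card_insert_of_notMem, Finset.card_singleton]
    · simp only [Finset.mem_singleton]
      exact (hs a).2.2.symm
    · simp only [Finset.mem_insert, Finset.mem_singleton, not_or]
      exact ⟨h23 a, (hs a).2.1.symm⟩
    · simp only [Finset.mem_insert, Finset.mem_singleton, not_or]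
      exact ⟨h12 a, h13 a, (hs a).1.symm⟩
  omega

/-- In the active case for the rows `s1`, `s2` the rows `s1`, `s3` and the new row have no
common block. -/
theorem good_of_active (s1 s2 s3 s : Fin 5 → C)
    (h1 : Injective s1) (h2 : Injective s2) (h3 : Injective s3) (h4 : Injective s)
    (h12 : ∀ j, s1 j ≠ s2 j) (h13 : ∀ j, s1 j ≠ s3 j) (h23 : ∀ j, s2 j ≠ s3 j)
    (hs : ∀ j, s j ≠ s1 j ∧ s j ≠ s2 j ∧ s j ≠ s3 j)
    (A : Finset (Fin 5)) (hA : A.card = 3)
    (hA12 : A.image s1 = A.image s2)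
    (hout : ∀ j ∉ A, s j ∈ A.image s1) : ¬ Bad s1 s3 s := by
  rintro ⟨A', hA', e1, e2⟩
  have hf := fourth s1 s3 s2 s h1 h13 h12 (fun j => (h23 j).symm)
    (fun j => ⟨(hs j).1, (hs j).2.2, (hs j).2.1⟩) A' hA' e1 e2
  have c1 : ((A ∩ A').image s1).card = (A ∩ A').card := Finset.card_image_of_injective _ h1
  have c2 : ((A ∩ A').image s2).card = (A ∩ A').card := Finset.card_image_of_injective _ h2
  rw [Finset.image_inter _ _ h1] at c1
  have cA : (A.image s1).card = 3 := by rw [Finset.card_image_of_injective _ h1, hA]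
  have hsub1 : (A ∩ A').image s2 ⊆ A.image s1 \ A'.image s1 := by
    intro c hc
    obtain ⟨a, ha, rfl⟩ := Finset.mem_image.mp hc
    obtain ⟨ha1, ha2⟩ := Finset.mem_inter.mp ha
    refine Finset.mem_sdiff.mpr ⟨?_, hf a ha2⟩
    rw [hA12]
    exact Finset.mem_image_of_mem _ ha1
  have hsub2 : (A' \ A).image s ⊆ A.image s1 ∩ A'.image s1 := by
    intro c hc
    obtain ⟨a, ha, rfl⟩ := Finset.mem_image.mp hc
    obtain ⟨ha1, ha2⟩ := Finset.mem_sdiff.mp ha
    refine Finset.mem_inter.mpr ⟨hout a ha2, ?_⟩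
    rw [e1, e2]
    exact Finset.mem_image_of_mem _ ha1
  have k1 := Finset.card_le_card hsub1
  have k2 := Finset.card_le_card hsub2
  rw [Finset.card_image_of_injective _ h4] at k2
  have k3 := Finset.card_sdiff_add_card_inter (A.image s1) (A'.image s1)
  have k4 := Finset.card_sdiff_add_card_inter A' A
  rw [Finset.inter_comm A' A] at k4
  omega

/-- The pair `s1`, `s2` is active with respect to the list `L` and the third row `s3`. -/
def Active (L : Finset C) (s1 s2 s3 : Fin 5 → C) : Prop :=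
  ∃ A : Finset (Fin 5), A.card = 3 ∧ A.image s1 = A.image s2 ∧ A.image s1 ⊆ L ∧
    ∀ a ∈ A, s3 a ∉ A.image s1

theorem key_active (L : Finset C) (hL : L.card = 5) (s1 s2 s3 : Fin 5 → C)
    (h1 : Injective s1) (h2 : Injective s2) (h3 : Injective s3)
    (h12 : ∀ j, s1 j ≠ s2 j) (h13 : ∀ j, s1 j ≠ s3 j) (h23 : ∀ j, s2 j ≠ s3 j)
    (hact : Active L s1 s2 s3) :
    ∃ s : Fin 5 → C, Injective s ∧ (∀ j, s j ∈ L) ∧
      (∀ j, s j ≠ s1 j ∧ s j ≠ s2 j ∧ s j ≠ s3 j) ∧
      ¬ Bad s1 s2 s ∧ ¬ Bad s1 s3 s ∧ ¬ Bad s2 s3 s := by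
  obtain ⟨A, hA, hA12, hAL, hA3⟩ := hact
  obtain ⟨s, hs, hs1, ⟨a, ha, hs2⟩, hs3⟩ :=
    active L hL s1 s2 s3 h1 h2 h3 h12 A hA hA12 hAL hA3
  refine ⟨s, hs, fun j => (hs1 j).1, fun j => (hs1 j).2, ?_, ?_, ?_⟩
  · rintro ⟨A', hA', e1, e2⟩
    have := block_unique s1 s2 h1 h2 h12 A A' hA hA' hA12 e1
    subst this
    apply hs2
    rw [e1, e2]
    exact Finset.mem_image_of_mem _ ha
  · exact good_of_active s1 s2 s3 s h1 h2 h3 hs h12 h13 h23 (fun j => (hs1 j).2) A hA hA12 hs3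
  · exact good_of_active s2 s1 s3 s h2 h1 h3 hs (fun j => (h12 j).symm) h23 h13
      (fun j => ⟨(hs1 j).2.2.1, (hs1 j).2.1, (hs1 j).2.2.2⟩) A hA hA12.symm
      (fun j hj => by rw [← hA12]; exact hs3 j hj)

/-- The key lemma. -/
theorem key (L : Finset C) (hL : L.card = 5) (s1 s2 s3 : Fin 5 → C)
    (h1 : Injective s1) (h2 : Injective s2) (h3 : Injective s3)
    (h12 : ∀ j, s1 j ≠ s2 j) (h13 : ∀ j, s1 j ≠ s3 j) (h23 : ∀ j, s2 j ≠ s3 j)
    (hg : ¬ Bad s1 s2 s3) :
    ∃ s : Fin 5 → C, Injective s ∧ (∀ j, s j ∈ L) ∧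
      (∀ j, s j ≠ s1 j ∧ s j ≠ s2 j ∧ s j ≠ s3 j) ∧
      ¬ Bad s1 s2 s ∧ ¬ Bad s1 s3 s ∧ ¬ Bad s2 s3 s := by
  by_cases a12 : Active L s1 s2 s3
  · exact key_active L hL s1 s2 s3 h1 h2 h3 h12 h13 h23 a12
  by_cases a13 : Active L s1 s3 s2
  · obtain ⟨s, k1, k2, k3, k4, k5, k6⟩ := key_active L hL s1 s3 s2 h1 h3 h2 h13 h12
      (fun j => (h23 j).symm) a13
    exact ⟨s, k1, k2, fun j => ⟨(k3 j).1, (k3 j).2.2, (k3 j).2.1⟩, k5, k4,
      fun h => k6 h.swap12⟩
  by_cases a23 : Active L s2 s3 s1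
  · obtain ⟨s, k1, k2, k3, k4, k5, k6⟩ := key_active L hL s2 s3 s1 h2 h3 h1 h23
      (fun j => (h12 j).symm) (fun j => (h13 j).symm) a23
    exact ⟨s, k1, k2, fun j => ⟨(k3 j).2.2, (k3 j).1, (k3 j).2.1⟩,
      fun h => k5 h.swap12, fun h => k6 h.swap12, k4⟩
  obtain ⟨s, hs, hsj⟩ := perfect L hL s1 s2 s3 h1 h2 h3 hg
  have hL' : ∀ A : Finset (Fin 5), A.image s ⊆ L := by
    intro A c hc
    obtain ⟨a, -, rfl⟩ := Finset.mem_image.mp hc
    exact (hsj a).1
  refine ⟨s, hs, fun j => (hsj j).1, fun j => (hsj j).2, ?_, ?_, ?_⟩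
  · rintro ⟨A, hA, e1, e2⟩
    exact a12 ⟨A, hA, e1, by rw [e1, e2]; exact hL' A,
      fourth s1 s2 s3 s h1 h12 h13 h23 (fun j => (hsj j).2) A hA e1 e2⟩
  · rintro ⟨A, hA, e1, e2⟩
    exact a13 ⟨A, hA, e1, by rw [e1, e2]; exact hL' A,
      fourth s1 s3 s2 s h1 h13 h12 (fun j => (h23 j).symm)
        (fun j => ⟨(hsj j).2.1, (hsj j).2.2.2, (hsj j).2.2.1⟩) A hA e1 e2⟩
  · rintro ⟨A, hA, e1, e2⟩
    exact a23 ⟨A, hA, e1, by rw [e1, e2]; exact hL' A,
      fourth s2 s3 s1 s h2 h23 (fun j => (h12 j).symm) (fun j => (h13 j).symm)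
        (fun j => ⟨(hsj j).2.2.1, (hsj j).2.2.2, (hsj j).2.1⟩) A hA e1 e2⟩

end Pool.Agent.MPfe1b94.TW
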