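import Mathlib

/-!
The key lemma for general `t ≥ 3`: a set of `t` injective rows of length `n = 2 t - 1` which are
pairwise different in each position and have no common block of size `t` can be completed by a
new row from any list of `n` colours such that every `t` of the `t + 1` rows containing the new
one have no common block either.
-/

set_option autoImplicit false

namespace Pool.Agent.MPfe1b94.TW

open Finset Function

variable {C : Type} [DecidableEq C] {n : ℕ}

/-- The rows in `R` have a common block of size `t`: a set of `t` positions with the same set of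
entries in each of the rows. -/
def BadT (t : ℕ) (R : Finset (Fin n → C)) : Prop :=
  ∃ A : Finset (Fin n), A.card = t ∧ ∀ r ∈ R, ∀ r' ∈ R, A.image r = A.image r'

/-- The rows in `R` are injective and differ in each position. -/
structure Rows (R : Finset (Fin n → C)) : Prop where
  inj : ∀ r ∈ R, Injective r
  ne : ∀ r ∈ R, ∀ r' ∈ R, r ≠ r' → ∀ j, r j ≠ r' j

theorem Rows.card_image {R : Finset (Fin n → C)} (h : Rows R) (j : Fin n) :
    (R.image fun r => r j).card = R.card := by
  apply Finset.card_image_of_injOn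
  intro r hr r' hr' he
  by_contra hne
  exact h.ne r hr r' hr' hne j he

theorem perfectT (t : ℕ) (hn : n + 1 = 2 * t) (L : Finset C) (hL : L.card = n)
    (R : Finset (Fin n → C)) (hR : R.card = t) (hr : Rows R) (hg : ¬ BadT t R) :
    ∃ s : Fin n → C, Injective s ∧ (∀ j, s j ∈ L) ∧ ∀ r ∈ R, ∀ j, s j ≠ r j := by
  set al : Fin n → Finset C := fun j => L \ R.image (fun r => r j) with hal
  have hall : ∀ X : Finset (Fin n), X.card ≤ (X.biUnion al).card := by
    intro X
    by_contra hlt
    rw [not_le] at hlt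
    have hN : X.biUnion al ⊆ L := by
      intro c hc
      obtain ⟨j, -, hj⟩ := Finset.mem_biUnion.mp hc
      exact (Finset.mem_sdiff.mp hj).1
    have hXn : X.card ≤ n := by simpa using Finset.card_le_univ X
    have hpos : 0 < X.card := by omega
    obtain ⟨j0, hj0⟩ := Finset.card_pos.mp hpos
    have h2N : n - t ≤ (X.biUnion al).card := by
      have e1 : (al j0).card ≤ (X.biUnion al).card :=
        Finset.card_le_card (Finset.subset_biUnion_of_mem al hj0)
      have e2 : L.card - (R.image fun r => r j0).card ≤ (al j0).card :=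
        Finset.le_card_sdiff _ _
      rw [hr.card_image] at e2
      omega
    set D := L \ X.biUnion al with hD
    have hDc : D.card + (X.biUnion al).card = n := by
      have := Finset.card_sdiff_add_card_eq_card hN
      rw [← hD] at this
      omega
    -- every colour of `D` is forbidden at every position of `X`
    have hforb : ∀ c ∈ D, ∀ j ∈ X, ∃ r ∈ R, r j = c := by
      intro c hc j hj
      by_contra hcon
      obtain ⟨hc1, hc2⟩ := Finset.mem_sdiff.mp hc
      apply hc2
      refine Finset.mem_biUnion.mpr ⟨j, hj, Finset.mem_sdiff.mpr ⟨hc1, ?_⟩⟩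
      intro hm
      obtain ⟨r, hrR, hrc⟩ := Finset.mem_image.mp hm
      exact hcon ⟨r, hrR, hrc⟩
    -- the rows with the colour `c` in a position of `X`
    have hrow : ∀ c ∈ D, X.card ≤ (R.filter fun r => ∃ j ∈ X, r j = c).card := by
      intro c hc
      have hch : ∀ j : Fin n, ∃ r : Fin n → C, j ∈ X → r ∈ R ∧ r j = c := by
        intro j
        by_cases hj : j ∈ X
        · obtain ⟨r, h1, h2⟩ := hforb c hc j hj
          exact ⟨r, fun _ => ⟨h1, h2⟩⟩
        · exact ⟨fun _ => c, fun h => absurd h hj⟩
      choose g hg using hch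
      apply Finset.card_le_card_of_injOn g
      · intro j hj
        have hj' : j ∈ X := hj
        rw [Finset.mem_coe, Finset.mem_filter]
        exact ⟨(hg j hj').1, j, hj', (hg j hj').2⟩
      · intro j hj j' hj' he
        have e1 := (hg j hj).2
        have e2 := (hg j' hj').2
        rw [← he] at e2
        exact hr.inj _ (hg j hj).1 (e1.trans e2.symm)
    have hDpos : 0 < D.card := by omega
    obtain ⟨c0, hc0⟩ := Finset.card_pos.mp hDpos
    have hXt : X.card ≤ t := by
      have h1 := hrow c0 hc0
      have h2 := Finset.card_filter_le R fun r => ∃ j ∈ X, r j = c0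
      omega
    have hXe : X.card = t := by omega
    have hDe : t ≤ D.card := by omega
    have himg : ∀ r ∈ R, D = X.image r := by
      intro r hrR
      apply Finset.eq_of_subset_of_card_le
      · intro c hc
        have h1 := hrow c hc
        have h2 : (R.filter fun r => ∃ j ∈ X, r j = c) = R :=
          Finset.eq_of_subset_of_card_le (Finset.filter_subset _ _) (by omega)
        have h3 : r ∈ R.filter fun r => ∃ j ∈ X, r j = c := by rw [h2]; exact hrR
        obtain ⟨j, hj, hjc⟩ := (Finset.mem_filter.mp h3).2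
        exact Finset.mem_image.mpr ⟨j, hj, hjc⟩
      · rw [Finset.card_image_of_injective _ (hr.inj r hrR)]; omega
    exact hg ⟨X, hXe, fun r h1 r' h2 => (himg r h1).symm.trans (himg r' h2)⟩
  obtain ⟨s, hs, hst⟩ := (Finset.all_card_le_biUnion_card_iff_exists_injective al).mp hall
  refine ⟨s, hs, fun j => (Finset.mem_sdiff.mp (hst j)).1, fun r hrR j he => ?_⟩
  exact (Finset.mem_sdiff.mp (hst j)).2 (Finset.mem_image.mpr ⟨r, hrR, he.symm⟩)

/-- A bijection between sets of the same size at least two avoiding one injective row. -/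
theorem avoid_one (X : Finset (Fin n)) (Y : Finset C) (hXY : X.card = Y.card) (h2 : 2 ≤ X.card)
    (r : Fin n → C) (hr : Injective r) :
    ∃ f : Fin n → C, (∀ x ∈ X, ∀ y ∈ X, f x = f y → x = y) ∧ ∀ x ∈ X, f x ∈ Y ∧ f x ≠ r x := by
  let al : {x // x ∈ X} → Finset C := fun x => Y.erase (r x.1)
  have hall : ∀ Z : Finset {x // x ∈ X}, Z.card ≤ (Z.biUnion al).card := by
    intro Z
    have hZX : Z.card ≤ X.card := by
      have := Finset.card_le_univ Z
      simpa using this
    rcases Nat.lt_or_ge Z.card 2 with h | h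
    · rcases Nat.eq_zero_or_pos Z.card with h0 | h0
      · omega
      · obtain ⟨z, hz⟩ := Finset.card_pos.mp h0
        have e1 : (al z).card ≤ (Z.biUnion al).card :=
          Finset.card_le_card (Finset.subset_biUnion_of_mem al hz)
        have e2 : Y.card - 1 ≤ (al z).card := Finset.pred_card_le_card_erase
        omega
    · obtain ⟨z, hz, z', hz', hne⟩ := Finset.one_lt_card.mp h
      have : Y ⊆ Z.biUnion al := by
        intro c hc
        by_cases hcz : c = r z.1
        · refine Finset.mem_biUnion.mpr ⟨z', hz', Finset.mem_erase.mpr ⟨?_, hc⟩⟩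
          intro hcz'
          exact hne (Subtype.ext (hr (hcz.symm.trans hcz')))
        · exact Finset.mem_biUnion.mpr ⟨z, hz, Finset.mem_erase.mpr ⟨hcz, hc⟩⟩
      have := Finset.card_le_card this
      omega
  obtain ⟨f, hf, hft⟩ := (Finset.all_card_le_biUnion_card_iff_exists_injective al).mp hall
  refine ⟨fun x => if h : x ∈ X then f ⟨x, h⟩ else r x, ?_, ?_⟩
  · intro x hx y hy he
    simp only [hx, hy, dif_pos] at he
    exact congrArg Subtype.val (hf he)
  · intro x hx
    simp only [hx, dif_pos]
    have := Finset.mem_erase.mp (hft ⟨x, hx⟩)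
    exact ⟨this.2, this.1⟩

/-- Row `r0` of `R` is active: the other rows have a common block with entries in `L` and `r0`
avoids the entries of the block in its positions. -/
def ActiveT (t : ℕ) (L : Finset C) (R : Finset (Fin n → C)) (r0 : Fin n → C) : Prop :=
  ∃ (A : Finset (Fin n)) (B : Finset C), A.card = t ∧ B ⊆ L ∧
    (∀ r ∈ R, r ≠ r0 → A.image r = B) ∧ ∀ a ∈ A, r0 a ∉ B

/-- The construction in the active case. -/
theorem activeT (t : ℕ) (ht : 3 ≤ t) (hn : n + 1 = 2 * t) (L : Finset C) (hL : L.card = n)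
    (R : Finset (Fin n → C)) (hR : R.card = t) (hr : Rows R) (r0 : Fin n → C) (hr0 : r0 ∈ R)
    (A : Finset (Fin n)) (B : Finset C) (hA : A.card = t) (hBL : B ⊆ L)
    (hAB : ∀ r ∈ R, r ≠ r0 → A.image r = B) (hact : ∀ a ∈ A, r0 a ∉ B) :
    ∃ (s : Fin n → C) (a0 : Fin n), Injective s ∧ (∀ j, s j ∈ L) ∧
      (∀ r ∈ R, ∀ j, s j ≠ r j) ∧ a0 ∈ A ∧ s a0 ∈ B ∧ (∀ a ∈ A, a ≠ a0 → s a ∉ B) ∧
      ∀ j ∉ A, s j ∈ B := by
  have hRe : (R.erase r0).card = t - 1 := by rw [Finset.card_erase_of_mem hr0, hR]
  obtain ⟨r1, hr1⟩ := Finset.card_pos.mp (show 0 < (R.erase r0).card by omega)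
  obtain ⟨hr1n, hr1R⟩ := Finset.mem_erase.mp hr1
  have hB : B.card = t := by
    rw [← hAB r1 hr1R hr1n, Finset.card_image_of_injective _ (hr.inj r1 hr1R), hA]
  obtain ⟨a0, ha0⟩ := Finset.card_pos.mp (show 0 < A.card by omega)
  have hin : ∀ r ∈ R, r ≠ r0 → ∀ a, r a ∈ B ↔ a ∈ A := by
    intro r hrR hne a
    rw [← hAB r hrR hne, (hr.inj r hrR).mem_finset_image]
  -- the missing colour at `a0`
  have hsub : ((R.erase r0).image fun r => r a0).card < B.card := by
    refine lt_of_le_of_lt Finset.card_image_le ?_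
    omega
  obtain ⟨q, hqB, hq⟩ := Finset.exists_mem_notMem_of_card_lt_card hsub
  have hq' : ∀ r ∈ R, q ≠ r a0 := by
    intro r hrR he
    by_cases h : r = r0
    · subst h
      exact hact a0 ha0 (he ▸ hqB)
    · exact hq (Finset.mem_image.mpr ⟨r, Finset.mem_erase.mpr ⟨h, hrR⟩, he.symm⟩)
  have hLB : (L \ B).card + t = n := by
    have := Finset.card_sdiff_add_card_eq_card hBL
    omega
  have hAc : Aᶜ.card + t = n := by
    have := Finset.card_compl_add_card A
    rw [Fintype.card_fin] at this
    omega
  obtain ⟨f, hf, hf'⟩ := avoid_one (A.erase a0) (L \ B)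
    (by rw [Finset.card_erase_of_mem ha0]; omega)
    (by rw [Finset.card_erase_of_mem ha0]; omega) r0 (hr.inj r0 hr0)
  obtain ⟨g, hg, hg'⟩ := avoid_one Aᶜ (B.erase q)
    (by rw [Finset.card_erase_of_mem hqB]; omega) (by omega) r0 (hr.inj r0 hr0)
  let s : Fin n → C := fun j => if j = a0 then q else if j ∈ A then f j else g j
  have s0 : s a0 = q := by simp [s]
  have s1 : ∀ a ∈ A, a ≠ a0 → s a = f a := by
    intro a ha hne
    simp [s, ha, hne]
  have s2 : ∀ j ∉ A, s j = g j := by
    intro j hj
    have hne : j ≠ a0 := fun h => hj (h ▸ ha0)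
    simp [s, hj, hne]
  have v1 : ∀ a ∈ A, a ≠ a0 → s a ∈ L ∧ s a ∉ B ∧ s a ≠ r0 a := by
    intro a ha hne
    rw [s1 a ha hne]
    obtain ⟨h1, h2⟩ := hf' a (Finset.mem_erase.mpr ⟨hne, ha⟩)
    exact ⟨(Finset.mem_sdiff.mp h1).1, (Finset.mem_sdiff.mp h1).2, h2⟩
  have v2 : ∀ j ∉ A, s j ∈ B ∧ s j ≠ q ∧ s j ≠ r0 j := by
    intro j hj
    rw [s2 j hj]
    obtain ⟨h1, h2⟩ := hg' j (Finset.mem_compl.mpr hj)
    exact ⟨(Finset.mem_erase.mp h1).2, (Finset.mem_erase.mp h1).1, h2⟩
  refine ⟨s, a0, ?_, ?_, ?_, ha0, by rw [s0]; exact hqB, fun a ha hne => (v1 a ha hne).2.1,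
    fun j hj => (v2 j hj).1⟩
  · intro i j hij
    by_cases hi : i ∈ A <;> by_cases hj : j ∈ A
    · by_cases hi0 : i = a0 <;> by_cases hj0 : j = a0
      · rw [hi0, hj0]
      · subst hi0
        rw [s0] at hij
        exact absurd (hij ▸ hqB) (v1 j hj hj0).2.1
      · subst hj0
        rw [s0] at hij
        exact absurd (hij.symm ▸ hqB) (v1 i hi hi0).2.1
      · rw [s1 i hi hi0, s1 j hj hj0] at hij
        exact hf i (Finset.mem_erase.mpr ⟨hi0, hi⟩) j (Finset.mem_erase.mpr ⟨hj0, hj⟩) hij
    · by_cases hi0 : i = a0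
      · subst hi0
        rw [s0] at hij
        exact absurd hij.symm (v2 j hj).2.1
      · exact absurd (hij ▸ (v2 j hj).1) (v1 i hi hi0).2.1
    · by_cases hj0 : j = a0
      · subst hj0
        rw [s0] at hij
        exact absurd hij (v2 i hi).2.1
      · exact absurd (hij.symm ▸ (v2 i hi).1) (v1 j hj hj0).2.1
    · rw [s2 i hi, s2 j hj] at hij
      exact hg i (Finset.mem_compl.mpr hi) j (Finset.mem_compl.mpr hj) hij
  · intro j
    by_cases hj : j ∈ A
    · by_cases hj0 : j = a0
      · subst hj0; rw [s0]; exact hBL hqB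
      · exact (v1 j hj hj0).1
    · exact hBL (v2 j hj).1
  · intro r hrR j
    by_cases hj : j ∈ A
    · by_cases hj0 : j = a0
      · subst hj0; rw [s0]; exact hq' r hrR
      · by_cases hrr : r = r0
        · subst hrr; exact (v1 j hj hj0).2.2
        · intro he
          exact (v1 j hj hj0).2.1 (he ▸ (hin r hrR hrr j).mpr hj)
    · by_cases hrr : r = r0
      · subst hrr; exact (v2 j hj).2.2
      · intro he
        exact hj ((hin r hrR hrr j).mp (he ▸ (v2 j hj).1))

/-- The new row and all rows but `r1` have a common block: then `r1` avoids its entries. -/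
theorem fourthT (t : ℕ) (R : Finset (Fin n → C)) (hR : R.card = t) (hr : Rows R)
    (s : Fin n → C) (hs : Injective s) (hsr : ∀ r ∈ R, ∀ j, s j ≠ r j)
    (r1 : Fin n → C) (hr1 : r1 ∈ R) (A : Finset (Fin n)) (hA : A.card = t)
    (hAA : ∀ r ∈ insert s (R.erase r1), ∀ r' ∈ insert s (R.erase r1), A.image r = A.image r') :
    ∀ a ∈ A, r1 a ∉ A.image s := by
  intro a ha hm
  have hRows : Rows (insert s (R.erase r1)) := by
    constructor
    · intro r h
      rcases Finset.mem_insert.mp h with rfl | h
      · exact hs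
      · exact hr.inj r (Finset.mem_erase.mp h).2
    · intro r h r' h' hne j
      rcases Finset.mem_insert.mp h with e | e <;> rcases Finset.mem_insert.mp h' with e' | e'
      · exact absurd (e.trans e'.symm) hne
      · rw [e]; exact hsr r' (Finset.mem_erase.mp e').2 j
      · rw [e']; exact (hsr r (Finset.mem_erase.mp e).2 j).symm
      · exact hr.ne r (Finset.mem_erase.mp e).2 r' (Finset.mem_erase.mp e').2 hne j
  have hsR : s ∉ R.erase r1 := by
    intro h
    exact hsr s (Finset.mem_erase.mp h).2 a rfl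
  have hc : (insert s (R.erase r1)).card = t := by
    rw [Finset.card_insert_of_notMem hsR, Finset.card_erase_of_mem hr1]
    have : 0 < R.card := Finset.card_pos.mpr ⟨r1, hr1⟩
    omega
  have hcard := hRows.card_image a
  have hsubset : (insert s (R.erase r1)).image (fun r => r a) ⊆ A.image s := by
    intro c hcc
    obtain ⟨r, hrr, rfl⟩ := Finset.mem_image.mp hcc
    rw [hAA s (Finset.mem_insert_self _ _) r hrr]
    exact Finset.mem_image_of_mem _ ha
  have heq := Finset.eq_of_subset_of_card_le hsubset
    (by rw [hcard, Finset.card_image_of_injective _ hs]; omega)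
  rw [← heq] at hm
  obtain ⟨r, hrr, he⟩ := Finset.mem_image.mp hm
  rcases Finset.mem_insert.mp hrr with rfl | h
  · exact hsr r1 hr1 a he
  · exact hr.ne r (Finset.mem_erase.mp h).2 r1 hr1 (Finset.mem_erase.mp h).1 a he

/-- The key lemma for `t` rows of length `2 t - 1`. -/
theorem keyT (t : ℕ) (ht : 3 ≤ t) (hn : n + 1 = 2 * t) (L : Finset C) (hL : L.card = n)
    (R : Finset (Fin n → C)) (hR : R.card = t) (hr : Rows R) (hg : ¬ BadT t R) :
    ∃ s : Fin n → C, Injective s ∧ (∀ j, s j ∈ L) ∧ (∀ r ∈ R, ∀ j, s j ≠ r j) ∧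
      ∀ r ∈ R, ¬ BadT t (insert s (R.erase r)) := by
  by_cases hex : ∃ r0 ∈ R, ActiveT t L R r0
  · obtain ⟨r0, hr0, A, B, hA, hBL, hAB, hact⟩ := hex
    obtain ⟨s, a0, hs, hsL, hsr, ha0, hs0, hs1, hs2⟩ :=
      activeT t ht hn L hL R hR hr r0 hr0 A B hA hBL hAB hact
    refine ⟨s, hs, hsL, hsr, ?_⟩
    intro r1 hr1 hbad
    obtain ⟨A', hA', hAA⟩ := hbad
    have hB' : (A'.image s).card = t := by rw [Finset.card_image_of_injective _ hs, hA']
    set B' := A'.image s with hB'def
    have hall : ∀ r ∈ R, r ≠ r1 → A'.image r = B' := fun r hrR hne =>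
      hAA r (Finset.mem_insert_of_mem (Finset.mem_erase.mpr ⟨hne, hrR⟩)) s
        (Finset.mem_insert_self _ _)
    have hA'c : A.card + A'.card ≤ n + (A ∩ A').card := by
      have h1 := Finset.card_union_add_card_inter A A'
      have h2 : (A ∪ A').card ≤ n := by simpa using Finset.card_le_univ (A ∪ A')
      omega
    -- a third row
    have hthird : ∃ k ∈ R, k ≠ r0 ∧ k ≠ r1 := by
      have h1 : ({r0, r1} : Finset (Fin n → C)).card < R.card := by
        have := Finset.card_le_two (a := r0) (b := r1)
        omega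
      obtain ⟨k, hk, hk'⟩ := Finset.exists_mem_notMem_of_card_lt_card h1
      simp only [Finset.mem_insert, Finset.mem_singleton, not_or] at hk'
      exact ⟨k, hk, hk'.1, hk'.2⟩
    obtain ⟨k, hkR, hk0, hk1⟩ := hthird
    have hB : B.card = t := by
      rw [← hAB k hkR hk0, Finset.card_image_of_injective _ (hr.inj k hkR), hA]
    have hI : (B ∩ B').card = (A ∩ A').card := by
      rw [← hAB k hkR hk0, ← hall k hkR hk1, ← Finset.image_inter _ _ (hr.inj k hkR),
        Finset.card_image_of_injective _ (hr.inj k hkR)]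
    have hinB : ∀ r ∈ R, r ≠ r0 → ∀ a, r a ∈ B ↔ a ∈ A := by
      intro r hrR hne a
      rw [← hAB r hrR hne, (hr.inj r hrR).mem_finset_image]
    have hinB' : ∀ r ∈ R, r ≠ r1 → ∀ a, r a ∈ B' ↔ a ∈ A' := by
      intro r hrR hne a
      rw [← hall r hrR hne, (hr.inj r hrR).mem_finset_image]
    have hsB' : ∀ a, s a ∈ B' ↔ a ∈ A' := by
      intro a
      rw [hB'def, hs.mem_finset_image]
    have hsdc := Finset.card_sdiff_add_card_inter B B'
    have hsda := Finset.card_sdiff_add_card_inter A' A
    rw [Finset.inter_comm A' A] at hsda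
    by_cases h01 : r1 = r0
    · -- the block of the rows other than `r0` is unique
      subst h01
      have hcnt : ∀ Q : Finset C, (∀ r ∈ R, r ≠ r1 → r a0 ∈ Q) → s a0 ∈ Q → t ≤ Q.card := by
        intro Q h1 h2
        have h3 : insert (s a0) ((R.erase r1).image fun r => r a0) ⊆ Q := by
          intro c hc
          rcases Finset.mem_insert.mp hc with rfl | hc
          · exact h2
          · obtain ⟨r, hrr, rfl⟩ := Finset.mem_image.mp hc
            exact h1 r (Finset.mem_erase.mp hrr).2 (Finset.mem_erase.mp hrr).1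
        have h4 := Finset.card_le_card h3
        rw [Finset.card_insert_of_notMem] at h4
        · have h5 : ((R.erase r1).image fun r => r a0).card = t - 1 := by
            have hR' : Rows (R.erase r1) := ⟨fun r h => hr.inj r (Finset.mem_erase.mp h).2,
              fun r h r' h' => hr.ne r (Finset.mem_erase.mp h).2 r' (Finset.mem_erase.mp h').2⟩
            rw [hR'.card_image, Finset.card_erase_of_mem hr1, hR]
          omega
        · intro hc
          obtain ⟨r, hrr, he⟩ := Finset.mem_image.mp hc
          exact hsr r (Finset.mem_erase.mp hrr).2 a0 he.symm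
      by_cases ha0' : a0 ∈ A'
      · have h1 := hcnt (B ∩ B')
          (fun r hrR hne => Finset.mem_inter.mpr ⟨(hinB r hrR hne a0).mpr ha0,
            (hinB' r hrR hne a0).mpr ha0'⟩)
          (Finset.mem_inter.mpr ⟨hs0, (hsB' a0).mpr ha0'⟩)
        have h2 : A ∩ A' = A := Finset.eq_of_subset_of_card_le Finset.inter_subset_left (by omega)
        have h3 : B ∩ B' = B := Finset.eq_of_subset_of_card_le Finset.inter_subset_left (by omega)
        obtain ⟨a, haA, hane⟩ := Finset.exists_mem_ne (show 1 < A.card by omega) a0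
        have h4 : a ∈ A' := by
          rw [← h2] at haA
          exact (Finset.mem_inter.mp haA).2
        have h5 : B = B' := by
          apply Finset.eq_of_subset_of_card_le
          · rw [← h3]; exact Finset.inter_subset_right
          · omega
        apply hs1 a haA hane
        rw [h5]
        exact (hsB' a).mpr h4
      · have h1 := hcnt (B \ B')
          (fun r hrR hne => Finset.mem_sdiff.mpr ⟨(hinB r hrR hne a0).mpr ha0,
            fun h => ha0' ((hinB' r hrR hne a0).mp h)⟩)
          (Finset.mem_sdiff.mpr ⟨hs0, fun h => ha0' ((hsB' a0).mp h)⟩)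
        omega
    · have h4 := fourthT t R hR hr s hs hsr r1 hr1 A' hA' hAA
      have h5 : (A ∩ A').card ≤ (B \ B').card := by
        rw [← Finset.card_image_of_injective (A ∩ A') (hr.inj r1 hr1)]
        apply Finset.card_le_card
        intro c hc
        obtain ⟨a, ha, rfl⟩ := Finset.mem_image.mp hc
        obtain ⟨ha1, ha2⟩ := Finset.mem_inter.mp ha
        exact Finset.mem_sdiff.mpr ⟨(hinB r1 hr1 h01 a).mpr ha1, h4 a ha2⟩
      have h6 : (A' \ A).image s ⊆ B ∩ B' := by
        intro c hc
        obtain ⟨a, ha, rfl⟩ := Finset.mem_image.mp hc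
        obtain ⟨ha1, ha2⟩ := Finset.mem_sdiff.mp ha
        exact Finset.mem_inter.mpr ⟨hs2 a ha2, (hsB' a).mpr ha1⟩
      have h7 := Finset.card_le_card h6
      rw [Finset.card_image_of_injective _ hs] at h7
      have h8 : (A' \ A).image s = B ∩ B' := by
        apply Finset.eq_of_subset_of_card_le h6
        rw [Finset.card_image_of_injective _ hs]
        omega
      have h9 : s a0 ∉ B' := by
        intro h
        have : s a0 ∈ (A' \ A).image s := by
          rw [h8]; exact Finset.mem_inter.mpr ⟨hs0, h⟩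
        rw [hs.mem_finset_image] at this
        exact (Finset.mem_sdiff.mp this).2 ha0
      have h10 : a0 ∉ A' := fun h => h9 ((hsB' a0).mpr h)
      -- too many entries at `a0`
      have h11 : insert (s a0) (((R.erase r0).erase r1).image fun r => r a0) ⊆ B \ B' := by
        intro c hc
        rcases Finset.mem_insert.mp hc with rfl | hc
        · exact Finset.mem_sdiff.mpr ⟨hs0, h9⟩
        · obtain ⟨r, hrr, rfl⟩ := Finset.mem_image.mp hc
          obtain ⟨e1, e2⟩ := Finset.mem_erase.mp hrr
          obtain ⟨e3, e4⟩ := Finset.mem_erase.mp e2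
          exact Finset.mem_sdiff.mpr ⟨(hinB r e4 e3 a0).mpr ha0,
            fun h => h10 ((hinB' r e4 e1 a0).mp h)⟩
      have h12 := Finset.card_le_card h11
      rw [Finset.card_insert_of_notMem] at h12
      · have h13 : (((R.erase r0).erase r1).image fun r => r a0).card = t - 1 - 1 := by
          have hR' : Rows ((R.erase r0).erase r1) :=
            ⟨fun r h => hr.inj r (Finset.mem_erase.mp (Finset.mem_erase.mp h).2).2,
              fun r h r' h' => hr.ne r (Finset.mem_erase.mp (Finset.mem_erase.mp h).2).2 r'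
                (Finset.mem_erase.mp (Finset.mem_erase.mp h').2).2⟩
          rw [hR'.card_image, Finset.card_erase_of_mem (Finset.mem_erase.mpr ⟨h01, hr1⟩),
            Finset.card_erase_of_mem hr0, hR]
        omega
      · intro hc
        obtain ⟨r, hrr, he⟩ := Finset.mem_image.mp hc
        exact hsr r (Finset.mem_erase.mp (Finset.mem_erase.mp hrr).2).2 a0 he.symm
  · obtain ⟨s, hs, hsL, hsr⟩ := perfectT t hn L hL R hR hr hg
    refine ⟨s, hs, hsL, hsr, ?_⟩
    intro r1 hr1 hbad
    obtain ⟨A', hA', hAA⟩ := hbad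
    refine hex ⟨r1, hr1, A', A'.image s, hA', ?_, ?_, ?_⟩
    · intro c hc
      obtain ⟨a, -, rfl⟩ := Finset.mem_image.mp hc
      exact hsL a
    · intro r hrR hne
      exact hAA r (Finset.mem_insert_of_mem (Finset.mem_erase.mpr ⟨hne, hrR⟩)) s
        (Finset.mem_insert_self _ _)
    · exact fourthT t R hR hr s hs hsr r1 hr1 A' hA' hAA

end Pool.Agent.MPfe1b94.TW
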