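import Mathlib

/-!
A gadget for 4-list assignments on a planar strip: rows are quadruples of colours, the first pole
has the row `(0, 1, 2, 3)` and the second pole the row `(4, 5, 6, 7)`.
-/

set_option autoImplicit false

namespace Pool.Agent.MPfe1b94.TW

/-- four colours, one for each colouring -/
abbrev Row := ℕ × ℕ × ℕ × ℕ

/-- lists of the path vertices -/
def lw (i : ℕ) : List ℕ := match i with
  | 0 => [1, 2, 5, 7]
  | 1 => [1, 2, 5, 7]
  | 2 => [0, 1, 2, 5]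
  | 3 => [0, 1, 5, 6]
  | 4 => [0, 2, 5, 6]
  | 5 => [0, 2, 5, 6]
  | 6 => [0, 1, 5, 6]
  | 7 => [0, 1, 2, 5]
  | 8 => [1, 2, 3, 5]
  | 9 => [0, 1, 2, 3]
  | _ => [0, 1, 2, 3]

/-- lists of the face vertices at the first pole -/
def lx (i : ℕ) : List ℕ := match i with
  | 0 => [0, 1, 2, 7]
  | 1 => [0, 1, 2, 3]
  | 2 => [0, 1, 2, 3]
  | 3 => [0, 1, 2, 5]
  | 4 => [0, 1, 2, 5]
  | 5 => [0, 1, 2, 6]
  | 6 => [0, 1, 2, 3]
  | 7 => [0, 1, 2, 3]
  | 8 => [0, 1, 2, 3]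
  | _ => [0, 1, 2, 3]

/-- lists of the face vertices at the second pole -/
def ly (i : ℕ) : List ℕ := match i with
  | 0 => [0, 2, 5, 7]
  | 1 => [0, 1, 2, 3]
  | 2 => [0, 1, 5, 6]
  | 3 => [0, 1, 5, 6]
  | 4 => [0, 1, 5, 6]
  | 5 => [0, 1, 5, 6]
  | 6 => [0, 1, 2, 3]
  | 7 => [0, 1, 2, 3]
  | 8 => [0, 1, 2, 3]
  | _ => [0, 1, 2, 3]

/-- feasible rows at position 0 -/
def S0 : List Row := [(1, 2, 7, 5), (1, 7, 5, 2), (2, 7, 1, 5), (2, 7, 5, 1), (5, 2, 7, 1), (5, 7, 1, 2), (7, 2, 1, 5), (7, 2, 5, 1)]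

/-- feasible rows at position 1 -/
def S1 : List Row := [(1, 7, 5, 2), (2, 7, 1, 5), (2, 7, 5, 1), (5, 2, 7, 1), (7, 2, 1, 5), (7, 2, 5, 1)]

/-- feasible rows at position 2 -/
def S2 : List Row := [(1, 0, 5, 2), (1, 2, 0, 5), (2, 0, 1, 5), (2, 0, 5, 1), (5, 0, 1, 2), (5, 2, 0, 1), (5, 2, 1, 0)]

/-- feasible rows at position 3 -/
def S3 : List Row := [(1, 0, 5, 6), (1, 6, 0, 5), (1, 6, 5, 0), (5, 6, 0, 1), (5, 6, 1, 0), (6, 0, 5, 1)]

/-- feasible rows at position 4 -/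
def S4 : List Row := [(2, 0, 5, 6), (5, 2, 0, 6), (6, 2, 0, 5), (6, 2, 5, 0)]

/-- feasible rows at position 5 -/
def S5 : List Row := [(2, 6, 0, 5), (2, 6, 5, 0), (6, 0, 5, 2)]

/-- feasible rows at position 6 -/
def S6 : List Row := [(5, 0, 1, 6), (6, 0, 1, 5)]

/-- feasible rows at position 7 -/
def S7 : List Row := [(1, 2, 5, 0)]

/-- feasible rows at position 8 -/
def S8 : List Row := [(5, 3, 1, 2)]

/-- feasible rows at position 9 -/
def S9 : List Row := []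

/-- is there a row with distinct colours from the list `L` which avoids three given rows? -/
def freeL (L : List ℕ) (p s t : Row) : Bool :=
  L.any fun x0 => (x0 != p.1 && (x0 != s.1 && x0 != t.1)) &&
  L.any fun x1 => (x1 != p.2.1 && (x1 != s.2.1 && (x1 != t.2.1 && x1 != x0))) &&
  L.any fun x2 => (x2 != p.2.2.1 && (x2 != s.2.2.1 && (x2 != t.2.2.1 &&
    (x2 != x0 && x2 != x1)))) &&
  L.any fun x3 => (x3 != p.2.2.2 && (x3 != s.2.2.2 && (x3 != t.2.2.2 &&
    (x3 != x0 && (x3 != x1 && x3 != x2)))))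

/-- the start of the strip -/
def startL (L : List ℕ) (T : List Row) : Bool :=
  L.all fun t0 => (t0 == 0 || t0 == 4) ||
  L.all fun t1 => (t1 == 1 || (t1 == 5 || t1 == t0)) ||
  L.all fun t2 => (t2 == 2 || (t2 == 6 || (t2 == t0 || t2 == t1))) ||
  L.all fun t3 => (t3 == 3 || (t3 == 7 || (t3 == t0 || (t3 == t1 || t3 == t2)))) ||
  T.any fun t' => t'.1 == t0 && (t'.2.1 == t1 && (t'.2.2.1 == t2 && t'.2.2.2 == t3))

/-- one step of the strip -/
def stepL (L X Y : List ℕ) (S T : List Row) : Bool :=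
  S.all fun s =>
  L.all fun t0 => (t0 == 0 || (t0 == 4 || t0 == s.1)) ||
  L.all fun t1 => (t1 == 1 || (t1 == 5 || (t1 == s.2.1 || t1 == t0))) ||
  L.all fun t2 => (t2 == 2 || (t2 == 6 || (t2 == s.2.2.1 || (t2 == t0 || t2 == t1)))) ||
  L.all fun t3 => (t3 == 3 || (t3 == 7 || (t3 == s.2.2.2 || (t3 == t0 || (t3 == t1 ||
    t3 == t2))))) ||
  ((T.any fun t' => t'.1 == t0 && (t'.2.1 == t1 && (t'.2.2.1 == t2 && t'.2.2.2 == t3))) ||
    (! freeL X (0, 1, 2, 3) s (t0, t1, t2, t3) || ! freeL Y (4, 5, 6, 7) s (t0, t1, t2, t3)))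

/-- the entry of a row -/
def ent (r : Row) (i : Fin 4) : ℕ := ![r.1, r.2.1, r.2.2.1, r.2.2.2] i

/-- A function with four values as a row. -/
def toRow (f : Fin 4 → ℕ) : Row := (f 0, f 1, f 2, f 3)

/-- The function `f` is injective, has values in `L`. -/
def InL (f : Fin 4 → ℕ) (L : List ℕ) : Prop := Function.Injective f ∧ ∀ i, f i ∈ L

/-- pointwise different -/
def Dis (f g : Fin 4 → ℕ) : Prop := ∀ i, f i ≠ g i

theorem InL.ne {f : Fin 4 → ℕ} {L : List ℕ} (h : InL f L) (i j : Fin 4) (hij : i ≠ j) :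
    f i ≠ f j := fun e => hij (h.1 e)

theorem bf {a b : ℕ} (h : a ≠ b) : (a == b) = false := beq_eq_false_iff_ne.mpr h

theorem bt {a b : ℕ} (h : a ≠ b) : (a != b) = true := bne_iff_ne.mpr h

theorem free_of_row {L : List ℕ} {p s t x : Fin 4 → ℕ} (hx : InL x L) (h1 : Dis x p)
    (h2 : Dis x s) (h3 : Dis x t) : freeL L (toRow p) (toRow s) (toRow t) = true := by
  unfold freeL toRow
  rw [List.any_eq_true]
  refine ⟨x 0, hx.2 0, ?_⟩
  rw [bt (h1 0), bt (h2 0), bt (h3 0), Bool.true_and, Bool.true_and, Bool.true_and,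
    List.any_eq_true]
  refine ⟨x 1, hx.2 1, ?_⟩
  rw [bt (h1 1), bt (h2 1), bt (h3 1), bt (hx.ne 1 0 (by decide)), Bool.true_and, Bool.true_and,
    Bool.true_and, Bool.true_and, List.any_eq_true]
  refine ⟨x 2, hx.2 2, ?_⟩
  rw [bt (h1 2), bt (h2 2), bt (h3 2), bt (hx.ne 2 0 (by decide)), bt (hx.ne 2 1 (by decide)),
    Bool.true_and, Bool.true_and, Bool.true_and, Bool.true_and, Bool.true_and, List.any_eq_true]
  refine ⟨x 3, hx.2 3, ?_⟩
  rw [bt (h1 3), bt (h2 3), bt (h3 3), bt (hx.ne 3 0 (by decide)), bt (hx.ne 3 1 (by decide)),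
    bt (hx.ne 3 2 (by decide))]
  rfl

theorem mem_of_any {T : List Row} {t : Fin 4 → ℕ}
    (h : (T.any fun t' => t'.1 == t 0 && (t'.2.1 == t 1 && (t'.2.2.1 == t 2 &&
      t'.2.2.2 == t 3))) = true) : toRow t ∈ T := by
  rw [List.any_eq_true] at h
  obtain ⟨r, hr, h⟩ := h
  simp only [Bool.and_eq_true, beq_iff_eq] at h
  have : r = toRow t := by
    obtain ⟨h0, h1, h2, h3⟩ := h
    rw [toRow, ← h0, ← h1, ← h2, ← h3]
  exact this ▸ hr

theorem start_row {L : List ℕ} {T : List Row} (h : startL L T = true) {t : Fin 4 → ℕ}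
    (ht : InL t L) (h1 : Dis t ![0, 1, 2, 3]) (h2 : Dis t ![4, 5, 6, 7]) : toRow t ∈ T := by
  have a0 : t 0 ≠ 0 := h1 0
  have a1 : t 1 ≠ 1 := h1 1
  have a2 : t 2 ≠ 2 := h1 2
  have a3 : t 3 ≠ 3 := h1 3
  have b0 : t 0 ≠ 4 := h2 0
  have b1 : t 1 ≠ 5 := h2 1
  have b2 : t 2 ≠ 6 := h2 2
  have b3 : t 3 ≠ 7 := h2 3
  unfold startL at h
  rw [List.all_eq_true] at h
  have h := h (t 0) (ht.2 0)
  rw [bf a0, bf b0, Bool.false_or, Bool.false_or,
    List.all_eq_true] at h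
  have h := h (t 1) (ht.2 1)
  rw [bf a1, bf b1, bf (ht.ne 1 0 (by decide)), Bool.false_or,
    Bool.false_or, Bool.false_or, List.all_eq_true] at h
  have h := h (t 2) (ht.2 2)
  rw [bf a2, bf b2, bf (ht.ne 2 0 (by decide)),
    bf (ht.ne 2 1 (by decide)), Bool.false_or, Bool.false_or, Bool.false_or, Bool.false_or,
    List.all_eq_true] at h
  have h := h (t 3) (ht.2 3)
  rw [bf a3, bf b3, bf (ht.ne 3 0 (by decide)),
    bf (ht.ne 3 1 (by decide)), bf (ht.ne 3 2 (by decide)), Bool.false_or, Bool.false_or,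
    Bool.false_or, Bool.false_or, Bool.false_or] at h
  exact mem_of_any h

theorem step_row {L X Y : List ℕ} {S T : List Row} (h : stepL L X Y S T = true)
    {s t x y : Fin 4 → ℕ} (hs : toRow s ∈ S) (ht : InL t L) (h1 : Dis t ![0, 1, 2, 3])
    (h2 : Dis t ![4, 5, 6, 7]) (h3 : Dis t s) (hx : InL x X) (hx1 : Dis x ![0, 1, 2, 3])
    (hx2 : Dis x s) (hx3 : Dis x t) (hy : InL y Y) (hy1 : Dis y ![4, 5, 6, 7])
    (hy2 : Dis y s) (hy3 : Dis y t) : toRow t ∈ T := by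
  have f1 : freeL X (0, 1, 2, 3) (toRow s) (toRow t) = true := free_of_row hx hx1 hx2 hx3
  have f2 : freeL Y (4, 5, 6, 7) (toRow s) (toRow t) = true := free_of_row hy hy1 hy2 hy3
  have a0 : t 0 ≠ 0 := h1 0
  have a1 : t 1 ≠ 1 := h1 1
  have a2 : t 2 ≠ 2 := h1 2
  have a3 : t 3 ≠ 3 := h1 3
  have b0 : t 0 ≠ 4 := h2 0
  have b1 : t 1 ≠ 5 := h2 1
  have b2 : t 2 ≠ 6 := h2 2
  have b3 : t 3 ≠ 7 := h2 3
  have c0 : t 0 ≠ (toRow s).1 := h3 0
  have c1 : t 1 ≠ (toRow s).2.1 := h3 1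
  have c2 : t 2 ≠ (toRow s).2.2.1 := h3 2
  have c3 : t 3 ≠ (toRow s).2.2.2 := h3 3
  unfold stepL at h
  rw [List.all_eq_true] at h
  have h := h _ hs
  rw [List.all_eq_true] at h
  have h := h (t 0) (ht.2 0)
  rw [bf a0, bf b0, bf c0, Bool.false_or,
    Bool.false_or, Bool.false_or, List.all_eq_true] at h
  have h := h (t 1) (ht.2 1)
  rw [bf a1, bf b1, bf c1,
    bf (ht.ne 1 0 (by decide)), Bool.false_or,
    Bool.false_or, Bool.false_or, Bool.false_or, List.all_eq_true] at h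
  have h := h (t 2) (ht.2 2)
  rw [bf a2, bf b2, bf c2,
    bf (ht.ne 2 0 (by decide)), bf (ht.ne 2 1 (by decide)), Bool.false_or, Bool.false_or,
    Bool.false_or, Bool.false_or, Bool.false_or, List.all_eq_true] at h
  have h := h (t 3) (ht.2 3)
  rw [bf a3, bf b3, bf c3,
    bf (ht.ne 3 0 (by decide)), bf (ht.ne 3 1 (by decide)), bf (ht.ne 3 2 (by decide)),
    Bool.false_or, Bool.false_or, Bool.false_or, Bool.false_or, Bool.false_or,
    Bool.false_or] at h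
  rw [show (t 0, t 1, t 2, t 3) = toRow t from rfl, f1, f2, Bool.not_true, Bool.or_self,
    Bool.or_false] at h
  exact mem_of_any h

theorem check0 : startL (lw 0) S0 = true := by decide +kernel

theorem check1 : stepL (lw 1) (lx 0) (ly 0) S0 S1 = true := by decide +kernel

theorem check2 : stepL (lw 2) (lx 1) (ly 1) S1 S2 = true := by decide +kernel

theorem check3 : stepL (lw 3) (lx 2) (ly 2) S2 S3 = true := by decide +kernel

theorem check4 : stepL (lw 4) (lx 3) (ly 3) S3 S4 = true := by decide +kernel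

theorem check5 : stepL (lw 5) (lx 4) (ly 4) S4 S5 = true := by decide +kernel

theorem check6 : stepL (lw 6) (lx 5) (ly 5) S5 S6 = true := by decide +kernel

theorem check7 : stepL (lw 7) (lx 6) (ly 6) S6 S7 = true := by decide +kernel

theorem check8 : stepL (lw 8) (lx 7) (ly 7) S7 S8 = true := by decide +kernel

theorem check9 : stepL (lw 9) (lx 8) (ly 8) S8 S9 = true := by decide +kernel

/-- The strip has no extension. -/
theorem no_extension (w x y : ℕ → Fin 4 → ℕ)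
    (hw : ∀ i < 10, InL (w i) (lw i)) (hx : ∀ i < 9, InL (x i) (lx i))
    (hy : ∀ i < 9, InL (y i) (ly i))
    (h1 : ∀ i < 10, Dis (w i) ![0, 1, 2, 3]) (h2 : ∀ i < 10, Dis (w i) ![4, 5, 6, 7])
    (h3 : ∀ i < 9, Dis (w (i + 1)) (w i))
    (hx1 : ∀ i < 9, Dis (x i) ![0, 1, 2, 3]) (hx2 : ∀ i < 9, Dis (x i) (w i))
    (hx3 : ∀ i < 9, Dis (x i) (w (i + 1)))
    (hy1 : ∀ i < 9, Dis (y i) ![4, 5, 6, 7]) (hy2 : ∀ i < 9, Dis (y i) (w i))
    (hy3 : ∀ i < 9, Dis (y i) (w (i + 1))) : False := by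
  have m0 : toRow (w 0) ∈ S0 := start_row check0 (hw 0 (by decide)) (h1 0 (by decide))
    (h2 0 (by decide))
  have m1 : toRow (w 1) ∈ S1 := step_row check1 m0 (hw 1 (by decide)) (h1 1 (by decide))
    (h2 1 (by decide)) (h3 0 (by decide)) (hx 0 (by decide)) (hx1 0 (by decide))
    (hx2 0 (by decide)) (hx3 0 (by decide)) (hy 0 (by decide)) (hy1 0 (by decide))
    (hy2 0 (by decide)) (hy3 0 (by decide))
  have m2 : toRow (w 2) ∈ S2 := step_row check2 m1 (hw 2 (by decide)) (h1 2 (by decide))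
    (h2 2 (by decide)) (h3 1 (by decide)) (hx 1 (by decide)) (hx1 1 (by decide))
    (hx2 1 (by decide)) (hx3 1 (by decide)) (hy 1 (by decide)) (hy1 1 (by decide))
    (hy2 1 (by decide)) (hy3 1 (by decide))
  have m3 : toRow (w 3) ∈ S3 := step_row check3 m2 (hw 3 (by decide)) (h1 3 (by decide))
    (h2 3 (by decide)) (h3 2 (by decide)) (hx 2 (by decide)) (hx1 2 (by decide))
    (hx2 2 (by decide)) (hx3 2 (by decide)) (hy 2 (by decide)) (hy1 2 (by decide))
    (hy2 2 (by decide)) (hy3 2 (by decide))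
  have m4 : toRow (w 4) ∈ S4 := step_row check4 m3 (hw 4 (by decide)) (h1 4 (by decide))
    (h2 4 (by decide)) (h3 3 (by decide)) (hx 3 (by decide)) (hx1 3 (by decide))
    (hx2 3 (by decide)) (hx3 3 (by decide)) (hy 3 (by decide)) (hy1 3 (by decide))
    (hy2 3 (by decide)) (hy3 3 (by decide))
  have m5 : toRow (w 5) ∈ S5 := step_row check5 m4 (hw 5 (by decide)) (h1 5 (by decide))
    (h2 5 (by decide)) (h3 4 (by decide)) (hx 4 (by decide)) (hx1 4 (by decide))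
    (hx2 4 (by decide)) (hx3 4 (by decide)) (hy 4 (by decide)) (hy1 4 (by decide))
    (hy2 4 (by decide)) (hy3 4 (by decide))
  have m6 : toRow (w 6) ∈ S6 := step_row check6 m5 (hw 6 (by decide)) (h1 6 (by decide))
    (h2 6 (by decide)) (h3 5 (by decide)) (hx 5 (by decide)) (hx1 5 (by decide))
    (hx2 5 (by decide)) (hx3 5 (by decide)) (hy 5 (by decide)) (hy1 5 (by decide))
    (hy2 5 (by decide)) (hy3 5 (by decide))
  have m7 : toRow (w 7) ∈ S7 := step_row check7 m6 (hw 7 (by decide)) (h1 7 (by decide))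
    (h2 7 (by decide)) (h3 6 (by decide)) (hx 6 (by decide)) (hx1 6 (by decide))
    (hx2 6 (by decide)) (hx3 6 (by decide)) (hy 6 (by decide)) (hy1 6 (by decide))
    (hy2 6 (by decide)) (hy3 6 (by decide))
  have m8 : toRow (w 8) ∈ S8 := step_row check8 m7 (hw 8 (by decide)) (h1 8 (by decide))
    (h2 8 (by decide)) (h3 7 (by decide)) (hx 7 (by decide)) (hx1 7 (by decide))
    (hx2 7 (by decide)) (hx3 7 (by decide)) (hy 7 (by decide)) (hy1 7 (by decide))
    (hy2 7 (by decide)) (hy3 7 (by decide))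
  have m9 : toRow (w 9) ∈ S9 := step_row check9 m8 (hw 9 (by decide)) (h1 9 (by decide))
    (h2 9 (by decide)) (h3 8 (by decide)) (hx 8 (by decide)) (hx1 8 (by decide))
    (hx2 8 (by decide)) (hx3 8 (by decide)) (hy 8 (by decide)) (hy1 8 (by decide))
    (hy2 8 (by decide)) (hy3 8 (by decide))
  exact absurd m9 (by simp [S9])

end Pool.Agent.MPfe1b94.TW
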