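import Pool.Agent.Work.MP_fe1b94_co.TW.Key
import Pool.Agent.Work.MP_fe1b94_co.Defs
import Pool.Agent.Work.MP_5e4e5a_co.ItemB

/-!
Every 5-list assignment of a graph of treewidth at most three has a packing.
-/

set_option autoImplicit false

namespace Pool.Agent.MPfe1b94.TW

open Finset Function Pool.Agent.IForest

/-- A packing on the vertices of `A` without common blocks on triangles. -/
structure Nice {V C : Type} [DecidableEq C] (L : V → Finset C) (H : SimpleGraph V)
    (A : Finset V) (s : V → Fin 5 → C) : Prop where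
  inj : ∀ v ∈ A, Injective (s v)
  mem : ∀ v ∈ A, ∀ j, s v j ∈ L v
  adj : ∀ u ∈ A, ∀ v ∈ A, H.Adj u v → ∀ j, s u j ≠ s v j
  good : ∀ u ∈ A, ∀ v ∈ A, ∀ w ∈ A, H.Adj u v → H.Adj u w → H.Adj v w →
    ¬ Bad (s u) (s v) (s w)

theorem not_bad_of_new {C : Type} [DecidableEq C] (s1 s2 s3 : Fin 5 → C)
    (h : ∀ i j, s1 i ≠ s2 j) : ¬ Bad s1 s2 s3 := by
  rintro ⟨A, hA, e1, -⟩
  obtain ⟨a, ha⟩ := Finset.card_pos.mp (show 0 < A.card by omega)
  have : s1 a ∈ A.image s2 := by rw [← e1]; exact Finset.mem_image_of_mem _ ha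
  obtain ⟨b, -, hb⟩ := Finset.mem_image.mp this
  exact h a b hb.symm

/-- The row of a new vertex whose neighbours are the vertices of a clique `B` with at most three
vertices. -/
theorem extend_clique {V C : Type} [DecidableEq V] [DecidableEq C] (L : V → Finset C)
    (hL : ∀ v, (L v).card = 5) (d : Fin 3 → Fin 5 → C)
    (hd : ∀ i j i' j', d i j = d i' j' → i = i' ∧ j = j') (hdL : ∀ v i j, d i j ∉ L v)
    (s : V → Fin 5 → C) (v : V) (B : Finset V) (hB : B.card ≤ 3)
    (hinj : ∀ b ∈ B, Injective (s b)) (hmem : ∀ b ∈ B, ∀ j, s b j ∈ L b)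
    (hadj : ∀ b ∈ B, ∀ b' ∈ B, b ≠ b' → ∀ j, s b j ≠ s b' j)
    (hgood : ∀ a ∈ B, ∀ b ∈ B, ∀ c ∈ B, a ≠ b → a ≠ c → b ≠ c → ¬ Bad (s a) (s b) (s c)) :
    ∃ t : Fin 5 → C, Injective t ∧ (∀ j, t j ∈ L v) ∧ (∀ b ∈ B, ∀ j, t j ≠ s b j) ∧
      ∀ b ∈ B, ∀ b' ∈ B, b ≠ b' → ¬ Bad (s b) (s b') t := by
  have hdi : ∀ i, Injective (d i) := fun i j j' h => (hd i j i j' h).2
  have hdd : ∀ i i', i ≠ i' → ∀ j j', d i j ≠ d i' j' := fun i i' h j j' e =>
    h (hd i j i' j' e).1
  have hsd : ∀ b ∈ B, ∀ i j j', s b j ≠ d i j' := by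
    intro b hb i j j' e
    exact hdL b i j' (e ▸ hmem b hb j)
  have hcases : B.card = 0 ∨ B.card = 1 ∨ B.card = 2 ∨ B.card = 3 := by omega
  rcases hcases with h | h | h | h
  · rw [Finset.card_eq_zero] at h
    subst h
    obtain ⟨t, t1, t2, -, -⟩ := key (L v) (hL v) (d 0) (d 1) (d 2) (hdi 0) (hdi 1) (hdi 2)
      (fun j => hdd 0 1 (by decide) j j) (fun j => hdd 0 2 (by decide) j j)
      (fun j => hdd 1 2 (by decide) j j) (not_bad_of_new _ _ _ (hdd 0 1 (by decide)))
    exact ⟨t, t1, t2, by simp, by simp⟩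
  · obtain ⟨a, rfl⟩ := Finset.card_eq_one.mp h
    have ha : a ∈ ({a} : Finset V) := by simp
    obtain ⟨t, t1, t2, t3, -⟩ := key (L v) (hL v) (s a) (d 1) (d 2) (hinj a ha) (hdi 1) (hdi 2)
      (fun j => hsd a ha 1 j j) (fun j => hsd a ha 2 j j)
      (fun j => hdd 1 2 (by decide) j j) (not_bad_of_new _ _ _ (hsd a ha 1))
    refine ⟨t, t1, t2, ?_, ?_⟩
    · intro b hb j
      rw [Finset.mem_singleton] at hb
      subst hb
      exact (t3 j).1
    · intro b hb b' hb' hne
      rw [Finset.mem_singleton] at hb hb'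
      exact absurd (hb.trans hb'.symm) hne
  · obtain ⟨a, b, hab, rfl⟩ := Finset.card_eq_two.mp h
    have ha : a ∈ ({a, b} : Finset V) := by simp
    have hb : b ∈ ({a, b} : Finset V) := by simp
    obtain ⟨t, t1, t2, t3, t4, -, -⟩ := key (L v) (hL v) (s a) (s b) (d 2) (hinj a ha)
      (hinj b hb) (hdi 2) (hadj a ha b hb hab) (fun j => hsd a ha 2 j j)
      (fun j => hsd b hb 2 j j)
      (fun h => not_bad_of_new _ _ _ (hsd a ha 2) (Bad.swap23 h))
    refine ⟨t, t1, t2, ?_, ?_⟩
    · intro c hc j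
      simp only [Finset.mem_insert, Finset.mem_singleton] at hc
      rcases hc with rfl | rfl
      · exact (t3 j).1
      · exact (t3 j).2.1
    · intro c hc c' hc' hne
      simp only [Finset.mem_insert, Finset.mem_singleton] at hc hc'
      rcases hc with rfl | rfl <;> rcases hc' with rfl | rfl
      · exact absurd rfl hne
      · exact t4
      · exact fun h => t4 h.swap12
      · exact absurd rfl hne
  · obtain ⟨a, b, c, hab, hac, hbc, rfl⟩ := Finset.card_eq_three.mp h
    have ha : a ∈ ({a, b, c} : Finset V) := by simp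
    have hb : b ∈ ({a, b, c} : Finset V) := by simp
    have hc : c ∈ ({a, b, c} : Finset V) := by simp
    obtain ⟨t, t1, t2, t3, t4, t5, t6⟩ := key (L v) (hL v) (s a) (s b) (s c) (hinj a ha)
      (hinj b hb) (hinj c hc) (hadj a ha b hb hab) (hadj a ha c hc hac)
      (hadj b hb c hc hbc) (hgood a ha b hb c hc hab hac hbc)
    refine ⟨t, t1, t2, ?_, ?_⟩
    · intro x hx j
      simp only [Finset.mem_insert, Finset.mem_singleton] at hx
      rcases hx with rfl | rfl | rfl
      · exact (t3 j).1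
      · exact (t3 j).2.1
      · exact (t3 j).2.2
    · intro x hx x' hx' hne
      simp only [Finset.mem_insert, Finset.mem_singleton] at hx hx'
      rcases hx with rfl | rfl | rfl <;> rcases hx' with rfl | rfl | rfl
      · exact absurd rfl hne
      · exact t4
      · exact t5
      · exact fun h => t4 h.swap12
      · exact absurd rfl hne
      · exact t6
      · exact fun h => t5 h.swap12
      · exact fun h => t6 h.swap12
      · exact absurd rfl hne

/-- Graphs with a tree decomposition into bags with at most four vertices: induction along an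
elimination ordering. -/
theorem exists_nice {V C : Type} [Fintype V] [DecidableEq V] [DecidableEq C] (L : V → Finset C)
    (hL : ∀ v, (L v).card = 5) (d : Fin 3 → Fin 5 → C)
    (hd : ∀ i j i' j', d i j = d i' j' → i = i' ∧ j = j') (hdL : ∀ v i j, d i j ∉ L v) :
    ∀ (n : ℕ) (H : SimpleGraph V) (A : Finset V), A.card = n → HasTD 3 H A →
      ∃ s : V → Fin 5 → C, Nice L H A s := by
  intro n
  induction n with
  | zero =>
    intro H A hA _
    rw [Finset.card_eq_zero] at hA
    subst hA
    exact ⟨fun _ => d 0, by constructor <;> simp⟩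
  | succ n ih =>
    intro H A hA hTD
    have hne : A.Nonempty := Finset.card_pos.mp (by omega)
    obtain ⟨v, hv, B, hBA, hvB, hBc, hN, hTD'⟩ := prB V 3 H A hTD hne
    obtain ⟨s, hs⟩ := ih _ (A.erase v) (by rw [Finset.card_erase_of_mem hv]; omega) hTD'
    have hBe : ∀ b ∈ B, b ∈ A.erase v := fun b hb =>
      Finset.mem_erase.mpr ⟨fun h => hvB (h ▸ hb), hBA hb⟩
    have hBadj : ∀ b ∈ B, ∀ b' ∈ B, b ≠ b' →
        (H ⊔ SimpleGraph.fromRel fun x y => x ∈ B ∧ y ∈ B).Adj b b' := by
      intro b hb b' hb' hne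
      rw [SimpleGraph.sup_adj, SimpleGraph.fromRel_adj]
      exact Or.inr ⟨hne, Or.inl ⟨hb, hb'⟩⟩
    obtain ⟨t, t1, t2, t3, t4⟩ := extend_clique L hL d hd hdL s v B hBc
      (fun b hb => hs.inj b (hBe b hb)) (fun b hb => hs.mem b (hBe b hb))
      (fun b hb b' hb' hne => hs.adj b (hBe b hb) b' (hBe b' hb') (hBadj b hb b' hb' hne))
      (fun a ha b hb c hc hab hac hbc => hs.good a (hBe a ha) b (hBe b hb) c (hBe c hc)
        (hBadj a ha b hb hab) (hBadj a ha c hc hac) (hBadj b hb c hc hbc))
    have hle : ∀ x y, H.Adj x y →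
        (H ⊔ SimpleGraph.fromRel fun x y => x ∈ B ∧ y ∈ B).Adj x y := by
      intro x y hxy
      rw [SimpleGraph.sup_adj]
      exact Or.inl hxy
    have hv' : Function.update s v t v = t := by simp
    have hne' : ∀ x, x ≠ v → Function.update s v t x = s x := fun x hx => by simp [hx]
    have hin : ∀ x ∈ A, x ≠ v → x ∈ A.erase v := fun x hx hxv =>
      Finset.mem_erase.mpr ⟨hxv, hx⟩
    refine ⟨Function.update s v t, ?_, ?_, ?_, ?_⟩
    · intro x hx
      by_cases hxv : x = v
      · subst hxv; rw [hv']; exact t1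
      · rw [hne' x hxv]; exact hs.inj x (hin x hx hxv)
    · intro x hx
      by_cases hxv : x = v
      · subst hxv; rw [hv']; exact t2
      · rw [hne' x hxv]; exact hs.mem x (hin x hx hxv)
    · intro x hx y hy hxy j
      by_cases hxv : x = v
      · subst hxv
        rw [hv', hne' y hxy.ne']
        exact t3 y (hN y hy hxy) j
      · by_cases hyv : y = v
        · subst hyv
          rw [hv', hne' x hxv]
          exact (t3 x (hN x hx hxy.symm) j).symm
        · rw [hne' x hxv, hne' y hyv]
          exact hs.adj x (hin x hx hxv) y (hin y hy hyv) (hle x y hxy) j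
    · intro x hx y hy z hz hxy hxz hyz
      by_cases hxv : x = v
      · subst hxv
        rw [hv', hne' y hxy.ne', hne' z hxz.ne']
        exact fun h => t4 y (hN y hy hxy) z (hN z hz hxz) hyz.ne h.swap12.swap23
      · by_cases hyv : y = v
        · subst hyv
          rw [hv', hne' x hxv, hne' z hyz.ne']
          exact fun h => t4 x (hN x hx hxy.symm) z (hN z hz hyz) hxz.ne h.swap23
        · by_cases hzv : z = v
          · subst hzv
            rw [hv', hne' x hxv, hne' y hyv]
            exact t4 x (hN x hx hxz.symm) y (hN y hy hyz.symm) hxy.ne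
          · rw [hne' x hxv, hne' y hyv, hne' z hzv]
            exact hs.good x (hin x hx hxv) y (hin y hy hyv) z (hin z hz hzv)
              (hle x y hxy) (hle x z hxz) (hle y z hyz)

/-- Every 5-list assignment of a graph of treewidth at most three has a packing. -/
theorem listPackable_five {V : Type} [Fintype V] (G : SimpleGraph V) (hT : TreewidthLE G 3) :
    ListPackable G 5 := by
  classical
  intro C L hL
  obtain ⟨n, T, bag, h1, h2, h3, h4, h5⟩ := hT
  let L' : V → Finset (C ⊕ (Fin 3 × Fin 5)) := fun v => (L v).map Embedding.inl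
  have hL' : ∀ v, (L' v).card = 5 := fun v => by rw [Finset.card_map, hL]
  obtain ⟨s, hs⟩ := exists_nice L' hL' (fun i j => Sum.inr (i, j))
    (by
      intro i j i' j' h
      have h' := Prod.ext_iff.mp (Sum.inr_injective h)
      exact ⟨h'.1, h'.2⟩)
    (by
      intro v i j h
      simp [L'] at h)
    (Finset.univ : Finset V).card G Finset.univ rfl
    ⟨n, T, bag, h1, h2, fun v _ => h3 v, fun u _ v _ => h4 u v, fun v _ => h5 v⟩
  have hc : ∀ v j, ∃ c ∈ L v, Sum.inl c = s v j := by
    intro v j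
    have := hs.mem v (Finset.mem_univ v) j
    obtain ⟨c, hc, hcs⟩ := Finset.mem_map.mp this
    exact ⟨c, hc, hcs⟩
  choose c hcL hcs using hc
  refine ⟨fun j v => c v j, fun j v => hcL v j, ?_, ?_⟩
  · intro j u v huv heq
    apply hs.adj u (Finset.mem_univ u) v (Finset.mem_univ v) huv j
    rw [← hcs, ← hcs]
    exact congrArg Sum.inl heq
  · intro i j hij v heq
    apply hij
    apply hs.inj v (Finset.mem_univ v)
    rw [← hcs, ← hcs]
    exact congrArg Sum.inl heq

end Pool.Agent.MPfe1b94.TW
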